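import Pool.Agent.Lib.MP_3b6a8c_pr.Virtual

/-! Balls in the low-degree part, cleaning an expander, averaging over components. -/

set_option linter.unusedSectionVars false

namespace Pool.Agent.Lib.MP_3b6a8c_pr

open Finset SimpleGraph

variable {V : Type} [DecidableEq V] {G : SimpleGraph V}

/-- `u` and `v` are joined by a walk of length at most `r` inside `L`. -/
def Near (G : SimpleGraph V) (L : Finset V) (r : ℕ) (u v : V) : Prop :=
  ∃ w : G.Walk u v, w.length ≤ r ∧ ∀ x ∈ w.support, x ∈ L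

theorem Near.symm {L : Finset V} {r : ℕ} {u v : V} (h : Near G L r u v) : Near G L r v u := by
  obtain ⟨w, h1, h2⟩ := h
  exact ⟨w.reverse, by simpa using h1, by simpa using h2⟩

theorem Near.trans {L : Finset V} {r s : ℕ} {u v x : V} (h : Near G L r u v)
    (h' : Near G L s v x) : Near G L (r + s) u x := by
  obtain ⟨w, h1, h2⟩ := h
  obtain ⟨w', h3, h4⟩ := h'
  exact ⟨w.append w', by rw [Walk.length_append]; omega,
    fun y hy => ((Walk.mem_support_append_iff _ _).1 hy).elim (h2 y) (h4 y)⟩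

theorem Conn.near {L Q : Finset V} {K : ℕ} (hQ : Conn G Q) (hL : Q ⊆ L) (hK : Q.card ≤ K)
    {u v : V} (hu : u ∈ Q) (hv : v ∈ Q) : Near G L K u v := by
  obtain ⟨w, hw⟩ := hQ.2 u hu v hv
  have h1 : ∀ x ∈ w.bypass.support, x ∈ Q := fun x hx =>
    hw x (w.support_bypass_subset_support hx)
  refine ⟨w.bypass, ?_, fun x hx => hL (h1 x hx)⟩
  have h2 := card_le_card (s := w.bypass.support.toFinset) fun x hx => h1 x (List.mem_toFinset.1 hx)
  rw [List.toFinset_card_of_nodup w.bypass_isPath.support_nodup, Walk.length_support] at h2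
  omega

open Classical in
/-- The ball of radius `r` inside `L`. -/
noncomputable def bl (G : SimpleGraph V) (L : Finset V) (r : ℕ) (u : V) : Finset V :=
  L.filter fun v => Near G L r v u

theorem mem_bl {L : Finset V} {r : ℕ} {u v : V} : v ∈ bl G L r u ↔ Near G L r v u := by
  classical
  exact mem_filter.trans ⟨fun h => h.2, fun h => ⟨by
    obtain ⟨w, -, hw⟩ := h
    exact hw v w.start_mem_support, h⟩⟩

theorem bl_subset (L : Finset V) (r : ℕ) (u : V) : bl G L r u ⊆ L := by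
  classical
  exact filter_subset _ _

theorem card_bl [DecidableRel G.Adj] {U L : Finset V} (hL : L ⊆ U) {D : ℕ}
    (hD : ∀ u ∈ L, (U.filter (G.Adj u)).card ≤ D) (r : ℕ) (u : V) :
    (bl G L r u).card ≤ (D + 1) ^ r := by
  induction r with
  | zero =>
    refine (card_le_card (t := {u}) fun v hv => ?_).trans (by simp)
    obtain ⟨w, h, -⟩ := mem_bl.1 hv
    exact mem_singleton.2 (w.eq_of_length_eq_zero (Nat.le_zero.1 h))
  | succ r ih =>
    refine (card_le_card (t := (bl G L r u).biUnion fun x => insert x (U.filter (G.Adj x)))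
      fun v hv => ?_).trans ((card_biUnion_le_card_mul _ _ (D + 1) fun x hx =>
        (card_insert_le _ _).trans (Nat.succ_le_succ (hD x (bl_subset _ _ _ hx)))).trans ?_)
    · obtain ⟨w, h1, h2⟩ := mem_bl.1 hv
      cases w with
      | nil => exact mem_biUnion.2 ⟨_, mem_bl.2 ⟨.nil, Nat.zero_le _, h2⟩, mem_insert_self _ _⟩
      | cons h w =>
        exact mem_biUnion.2 ⟨_, mem_bl.2 ⟨w, by simpa using h1, fun x hx => h2 x (by simp [hx])⟩,
          mem_insert_of_mem (mem_filter.2 ⟨hL (bl_subset _ _ _ hv), h.symm⟩)⟩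
    · rw [pow_succ]
      exact Nat.mul_le_mul_right _ ih

theorem clean [Fintype V] {k d : ℕ} (hG : IsVertexExpander G k d) {l : ℝ} (hl : 0 ≤ l) :
    ∃ U : Finset V, (d + 1 - l) * k ≤ U.card ∧
      ∀ S ⊆ U, l * S.card ≤ (d + 1 - l) * k → (l - 1) * S.card ≤ (nh G U S).card := by
  let N : Finset V → Finset V := fun Z => Z ∪ nh G univ Z
  have hN : ∀ {Z v}, v ∈ N Z ↔ v ∈ Z ∨ ∃ u ∈ Z, G.Adj u v := fun {Z v} => by
    simp only [N, mem_union, mem_nh, mem_univ]
    tauto
  have h1 : ∀ S : Finset V, S.card = k → ((d : ℝ) + 1) * k ≤ (N S).card := fun S hS => by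
    have := hG.2 S hS
    rw [show {v | v ∉ S ∧ ∃ u ∈ S, G.Adj u v} = (nh G univ S : Set V) by
      ext v; simp [mem_nh], Set.ncard_coe_finset] at this
    rw [card_union_of_disjoint (disjoint_nh _ _), hS]
    have : ((d * k : ℕ) : ℝ) ≤ (nh G univ S).card := by exact_mod_cast this
    push_cast at this ⊢
    linarith
  obtain ⟨Z, hZ, hmin⟩ := exists_min_image (univ.filter fun Z : Finset V => Z.card ≤ k)
    (fun Z => ((N Z).card : ℝ) - l * Z.card) ⟨∅, by simp⟩
  have hZk : Z.card ≤ k := (mem_filter.1 hZ).2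
  have h2 : ((N Z).card : ℝ) ≤ l * k := by
    have := hmin ∅ (by simp)
    rw [show N ∅ = ∅ by ext v; simp [hN]] at this
    have := mul_le_mul_of_nonneg_left (show (Z.card : ℝ) ≤ k by exact_mod_cast hZk) hl
    simp at *
    linarith
  refine ⟨univ \ N Z, ?_, fun S hS hSk => ?_⟩
  · obtain ⟨S, -, hS⟩ := exists_subset_card_eq (s := (univ : Finset V)) hG.1
    have a1 := h1 S hS
    have a2 : ((N S).card : ℝ) ≤ (univ \ N Z).card + (N Z).card := by
      rw [← Nat.cast_add, card_sdiff_add_card_eq_card (subset_univ _)]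
      exact_mod_cast card_le_card (subset_univ _)
    linarith
  have a1 : ∀ S' ⊆ S, ((N (Z ∪ S')).card : ℝ) ≤ (N Z).card + (S.card + (nh G (univ \ N Z) S).card) :=
    fun S' hS' => by
      have : N (Z ∪ S') ⊆ N Z ∪ (S ∪ nh G (univ \ N Z) S) := fun v hv => by
        by_cases b1 : v ∈ N Z
        · exact mem_union_left _ b1
        by_cases b2 : v ∈ S
        · exact mem_union_right _ (mem_union_left _ b2)
        refine mem_union_right _ (mem_union_right _ (mem_nh.2 ⟨by simp [b1], b2, ?_⟩))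
        rcases hN.1 hv with h | ⟨u, hu, h⟩
        · exact ((mem_union.1 h).elim (fun h => b1 (hN.2 (Or.inl h))) fun h => b2 (hS' h)).elim
        · exact ⟨u, hS' ((mem_union.1 hu).resolve_left fun hu =>
            b1 (hN.2 (Or.inr ⟨u, hu, h⟩))), h⟩
      exact_mod_cast (card_le_card this).trans ((card_union_le _ _).trans
        (Nat.add_le_add_left (card_union_le _ _) _))
  have a2 : ∀ S' ⊆ S, (Z ∪ S').card = Z.card + S'.card := fun S' hS' =>
    card_union_of_disjoint (disjoint_left.2 fun v hv hv' =>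
      (mem_sdiff.1 (hS (hS' hv'))).2 (hN.2 (Or.inl hv)))
  by_cases hc : Z.card + S.card ≤ k
  · have := hmin (Z ∪ S) (by simp [a2 S subset_rfl, hc])
    rw [a2 S subset_rfl] at this
    push_cast at this
    linarith [a1 S subset_rfl]
  · obtain ⟨S', hS', hc'⟩ := exists_subset_card_eq (s := S) (n := k - Z.card) (by omega)
    linarith [a1 S' hS', h1 (Z ∪ S') (by rw [a2 S' hS', hc']; omega)]

theorem avg_classes {S : Finset V} {c : V → Finset V} (h1 : ∀ v ∈ S, v ∈ c v ∧ c v ⊆ S)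
    (h2 : ∀ v ∈ S, ∀ u ∈ c v, c u = c v) (g : V → ℕ) (γ : ℝ) :
    γ * (S.filter fun v => γ * (c v).card < ∑ u ∈ c v, (g u : ℝ)).card ≤ ∑ u ∈ S, (g u : ℝ) := by
  have h3 : ∀ v ∈ S, (0 : ℝ) < (c v).card := fun v hv => by
    exact_mod_cast card_pos.2 ⟨v, (h1 v hv).1⟩
  calc _ = ∑ v ∈ S.filter fun v => γ * (c v).card < ∑ u ∈ c v, (g u : ℝ), γ := by
        rw [sum_const, nsmul_eq_mul, mul_comm]
    _ ≤ ∑ v ∈ S.filter fun v => γ * (c v).card < ∑ u ∈ c v, (g u : ℝ),
          ∑ u ∈ c v, (g u : ℝ) / (c u).card := by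
        refine sum_le_sum fun v hv => ?_
        obtain ⟨hv, h⟩ := mem_filter.1 hv
        rw [sum_congr rfl fun u hu => by rw [h2 v hv u hu], ← sum_div, le_div_iff₀ (h3 v hv)]
        exact h.le
    _ ≤ ∑ v ∈ S, ∑ u ∈ c v, (g u : ℝ) / (c u).card :=
        sum_le_sum_of_subset_of_nonneg (filter_subset _ _) fun _ _ _ => by positivity
    _ = ∑ u ∈ S, ∑ v ∈ c u, (g u : ℝ) / (c u).card := by
        refine sum_comm' fun v u => ⟨fun h => ?_, fun h => ?_⟩
        · exact ⟨h2 v h.1 u h.2 ▸ (h1 v h.1).1, (h1 v h.1).2 h.2⟩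
        · exact ⟨(h1 u h.2).2 h.1, h2 u h.2 v h.1 ▸ (h1 u h.2).1⟩
    _ = _ := sum_congr rfl fun u hu => by
        rw [sum_const, nsmul_eq_mul, mul_div_cancel₀ _ (h3 u hu).ne']

/-- In a graph cut into small pieces, most vertices lie in a piece with few boundary edges. -/
theorem most_good [Fintype V] [DecidableRel G.Adj] {U S L X : Finset V} (hL : L ⊆ U)
    {F : Finset (Sym2 V)} {K : ℕ}
    (hX : ∀ Z ⊆ L \ X, Conn (gr F) Z → Z.card ≤ K) (γ : ℝ) : ∃ R : Finset V,
    γ * R.card ≤ ∑ z ∈ X ∪ S \ L, ((U.filter (G.Adj z)).card : ℝ) ∧ ∀ v ∈ L, v ∉ X → v ∉ R →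
      ∃ Q ⊆ L, v ∈ Q ∧ Conn (gr F) Q ∧ Q.card ≤ K ∧
        ((bd S G.edgeFinset Q ∩ F).card : ℝ) ≤ γ * Q.card := by
  classical
  let c : V → Finset V := fun v => (L \ X).filter (Link (gr F) (L \ X) v)
  have hc : ∀ {v u}, u ∈ c v ↔ Link (gr F) (L \ X) v u :=
    mem_filter.trans ⟨fun h => h.2, fun h => ⟨h.right, h⟩⟩
  let g : V → ℕ := fun u => ((X ∪ S \ L).filter (G.Adj u)).card
  refine ⟨_, (avg_classes (S := L \ X) (c := c) (fun v hv => ⟨hc.2 (Link.refl hv),
    filter_subset _ _⟩) (fun v _ u hu => ?_) g γ).trans ?_, fun v hv hvX hvR => ?_⟩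
  · ext x
    exact hc.trans (Iff.trans ⟨(hc.1 hu).trans, (hc.1 hu).symm.trans⟩ hc.symm)
  · have := sum_card_bipartiteAbove_eq_sum_card_bipartiteBelow (s := L \ X) (t := X ∪ S \ L) G.Adj
    have h : ∑ u ∈ L \ X, g u ≤ ∑ z ∈ X ∪ S \ L, (U.filter (G.Adj z)).card :=
      this.trans_le (sum_le_sum fun z _ => card_le_card fun u hu => by
        obtain ⟨a1, a2⟩ := mem_filter.1 hu
        exact mem_filter.2 ⟨hL (mem_sdiff.1 a1).1, a2.symm⟩)
    exact_mod_cast h
  have hv' := mem_sdiff.2 ⟨hv, hvX⟩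
  have hQ : Conn (gr F) (c v) := conn_of (hc.2 (Link.refl hv')) fun u hu =>
    (hc.1 hu).induct (fun z => z ∈ c v ∧ Link (gr F) (c v) v z)
      ⟨hc.2 (Link.refl hv'), Link.refl (hc.2 (Link.refl hv'))⟩ (fun x hx y hy hxy h => by
        have := hc.2 ((hc.1 h.1).trans (Link.adj hx hy hxy))
        exact ⟨this, h.2.trans (Link.adj h.1 this hxy)⟩) |>.2
  refine ⟨c v, (filter_subset _ _).trans sdiff_subset, hc.2 (Link.refl hv'), hQ,
    hX _ (filter_subset _ _) hQ, le_trans ?_ (not_lt.1 fun h => hvR (mem_filter.2 ⟨hv', h⟩))⟩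
  have : (bd S G.edgeFinset (c v) ∩ F).card ≤ ∑ u ∈ c v, g u := by
    refine (card_le_card (t := (c v).biUnion fun u =>
      ((X ∪ S \ L).filter (G.Adj u)).image (s(u, ·))) fun e he => ?_).trans
      (card_biUnion_le.trans (sum_le_sum fun u _ => card_image_le))
    obtain ⟨a1, a2⟩ := mem_inter.1 he
    obtain ⟨a3, u, hu, y, hy, a4, rfl⟩ := mem_bd.1 a1
    have a5 : G.Adj u y := mem_edgeFinset.1 a3
    refine mem_biUnion.2 ⟨u, hu, mem_image_of_mem _ (mem_filter.2 ⟨?_, a5⟩)⟩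
    by_contra hno
    simp only [mem_union, mem_sdiff, not_or, not_and, not_not] at hno
    exact a4 (hc.2 ((hc.1 hu).trans (Link.adj (hc.1 hu).right (mem_sdiff.2 ⟨hno.2 hy, hno.1⟩)
      (gr_adj.2 ⟨a2, a5.ne⟩))))
  exact_mod_cast this

end Pool.Agent.Lib.MP_3b6a8c_pr
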