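import Pool.Agent.Lib.MP_3b6a8c_pr.Ex

/-! Independence and Chebyshev's inequality for locally dependent events. -/

set_option linter.unusedSectionVars false

namespace Pool.Agent.Lib.MP_3b6a8c_pr

open Finset

variable {α : Type*} [DecidableEq α]

theorem Ex_indep (p : ℝ) {E A B : Finset α} (hAB : Disjoint A B) {f g : Finset α → ℝ}
    (hf : ∀ F ⊆ E, ∀ F' ⊆ E, F ∩ A = F' ∩ A → f F = f F')
    (hg : ∀ F ⊆ E, ∀ F' ⊆ E, F ∩ B = F' ∩ B → g F = g F') :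
    Ex p E (fun F => f F * g F) = Ex p E f * Ex p E g := by
  have hd : Disjoint (E ∩ A) (E \ A) := (disjoint_sdiff_inter E A).symm
  have e1 : E ∩ A ∪ E \ A = E := by rw [union_comm, sdiff_union_inter]
  have h1 : ∀ F₁ ⊆ E ∩ A, ∀ F₂ ⊆ E \ A, f (F₁ ∪ F₂) = f F₁ := fun F₁ h₁ F₂ h₂ => by
    refine hf _ (e1 ▸ union_subset_union h₁ h₂) _ (h₁.trans inter_subset_left) ?_
    ext x
    have := fun h : x ∈ F₂ => mem_sdiff.1 (h₂ h)
    simp only [mem_inter, mem_union]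
    tauto
  have h2 : ∀ F₁ ⊆ E ∩ A, ∀ F₂ ⊆ E \ A, g (F₁ ∪ F₂) = g F₂ := fun F₁ h₁ F₂ h₂ => by
    refine hg _ (e1 ▸ union_subset_union h₁ h₂) _ (h₂.trans sdiff_subset) ?_
    ext x
    have := fun h : x ∈ F₁ => disjoint_left.1 hAB (mem_inter.1 (h₁ h)).2
    simp only [mem_inter, mem_union]
    tauto
  have k1 : Ex p E f = Ex p (E ∩ A) f := by
    conv_lhs => rw [← e1, Ex_union p hd]
    exact Ex_congr fun F₁ h₁ => (Ex_congr (h1 F₁ h₁)).trans (Ex_const _ _ _)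
  have k2 : Ex p E g = Ex p (E \ A) g := by
    conv_lhs => rw [← e1, Ex_union p hd]
    exact (Ex_congr fun F₁ h₁ => Ex_congr (h2 F₁ h₁)).trans (Ex_const _ _ _)
  rw [k1, k2, mul_comm, ← Ex_mul]
  conv_lhs => rw [← e1, Ex_union p hd]
  refine Ex_congr fun F₁ h₁ => ?_
  rw [mul_comm, ← Ex_mul]
  exact Ex_congr fun F₂ h₂ => by rw [h1 F₁ h₁ F₂ h₂, h2 F₁ h₁ F₂ h₂]

theorem Pr_le_of_weight {p : ℝ} (h0 : 0 ≤ p) (h1 : p ≤ 1) {E : Finset α} {A : Finset α → Prop}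
    {w : Finset α → ℝ} (hw0 : ∀ F ⊆ E, 0 ≤ w F) (h : ∀ F ⊆ E, A F → 1 ≤ w F) :
    Pr p E A ≤ Ex p E w :=
  Ex_mono h0 h1 fun F hF => by
    split_ifs with h2
    · exact h F hF h2
    · exact hw0 F hF

open Classical in
theorem cheb {ι : Type*} {p : ℝ} (h0 : 0 ≤ p) (h1 : p ≤ 1) {E : Finset α} (I : Finset ι)
    (P : ι → Finset α → Prop) (A : ι → Finset α) {Δ : ℕ}
    (hP : ∀ i ∈ I, ∀ F ⊆ E, ∀ F' ⊆ E, F ∩ A i = F' ∩ A i → P i F → P i F')
    (hΔ : ∀ i ∈ I, (I.filter fun j => ¬ Disjoint (A i) (A j)).card ≤ Δ) {t : ℝ} (ht : 0 < t) :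
    Pr p E (fun F => t ≤ |((I.filter fun i => P i F).card : ℝ) - ∑ i ∈ I, Pr p E (P i)|) ≤
      I.card * Δ / t ^ 2 := by
  set f : ι → Finset α → ℝ := fun i F => (if P i F then 1 else 0) - Pr p E (P i) with hf
  have f0 : ∀ i, Ex p E (f i) = 0 := fun i => by
    rw [hf, Ex_sub, Ex_const]; exact sub_self _
  have f1 : ∀ i F, |f i F| ≤ 1 := fun i F => by
    have a1 : 0 ≤ Pr p E (P i) := Ex_nonneg h0 h1 fun F _ => by split_ifs <;> norm_num
    have a2 : Pr p E (P i) ≤ 1 := Ex_le h0 h1 fun F _ => by split_ifs <;> norm_num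
    rw [abs_le]
    simp only [hf]
    split_ifs <;> constructor <;> linarith
  have f2 : ∀ i ∈ I, ∀ F ⊆ E, ∀ F' ⊆ E, F ∩ A i = F' ∩ A i → f i F = f i F' :=
    fun i hi F hF F' hF' h => by
      simp only [hf, (show P i F ↔ P i F' from ⟨hP i hi F hF F' hF' h, hP i hi F' hF' F hF h.symm⟩)]
  refine (Pr_le_of_weight h0 h1 (w := fun F => 1 / t ^ 2 * ∑ i ∈ I, ∑ j ∈ I, f i F * f j F)
    (fun F _ => ?_) fun F _ h => ?_).trans ?_
  · rw [← sum_mul_sum]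
    exact mul_nonneg (by positivity) (mul_self_nonneg _)
  · rw [← sum_mul_sum, one_div, inv_mul_eq_div, le_div_iff₀ (by positivity), one_mul, ← sq,
      ← sq_abs (∑ i ∈ I, f i F)]
    refine pow_le_pow_left₀ ht.le (h.trans_eq ?_) 2
    simp only [hf, sum_sub_distrib, sum_boole]
  · rw [Ex_mul, Ex_sum, one_div, inv_mul_eq_div]
    refine div_le_div_of_nonneg_right ?_ (by positivity)
    rw [← nsmul_eq_mul]
    refine sum_le_card_nsmul _ _ _ fun i hi => ?_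
    rw [Ex_sum]
    refine le_trans (sum_le_sum (g := fun j => if ¬ Disjoint (A i) (A j) then 1 else 0)
      fun j hj => ?_) ?_
    · split_ifs with h
      · rw [Ex_indep p h (f2 i hi) (f2 j hj), f0, zero_mul]
      · refine Ex_le h0 h1 fun F _ => (le_abs_self _).trans ?_
        rw [abs_mul]
        exact mul_le_one₀ (f1 _ _) (abs_nonneg _) (f1 _ _)
    · rw [sum_boole]
      exact_mod_cast hΔ i hi

end Pool.Agent.Lib.MP_3b6a8c_pr
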