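import Pool.Agent.Lib.MP_3b6a8c_pr.Defs

/-! Connected vertex sets, clique minors, Mader's density theorem, subdivisions. -/

set_option linter.unusedSectionVars false

namespace Pool.Agent.Lib.MP_3b6a8c_pr

open Finset SimpleGraph

variable {V : Type} [DecidableEq V] {Γ : SimpleGraph V}

/-- `u` and `v` are joined by a walk inside `S`. -/
def Link (Γ : SimpleGraph V) (S : Finset V) (u v : V) : Prop :=
  ∃ w : Γ.Walk u v, ∀ x ∈ w.support, x ∈ S

theorem Link.refl {S : Finset V} {u : V} (h : u ∈ S) : Link Γ S u u := ⟨.nil, by simpa⟩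

theorem Link.symm {S : Finset V} {u v : V} (h : Link Γ S u v) : Link Γ S v u := by
  obtain ⟨w, hw⟩ := h
  exact ⟨w.reverse, by simpa using hw⟩

theorem Link.trans {S : Finset V} {u v x : V} (h : Link Γ S u v) (h' : Link Γ S v x) :
    Link Γ S u x := by
  obtain ⟨w, hw⟩ := h
  obtain ⟨w', hw'⟩ := h'
  exact ⟨w.append w', fun y hy => ((Walk.mem_support_append_iff _ _).1 hy).elim (hw y) (hw' y)⟩

theorem Link.mono {S T : Finset V} {u v : V} (h : Link Γ S u v) (hST : S ⊆ T) : Link Γ T u v := by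
  obtain ⟨w, hw⟩ := h
  exact ⟨w, fun x hx => hST (hw x hx)⟩

theorem Link.adj {S : Finset V} {u v : V} (hu : u ∈ S) (hv : v ∈ S) (h : Γ.Adj u v) :
    Link Γ S u v := ⟨.cons h .nil, by simp [hu, hv]⟩

theorem Link.left {S : Finset V} {u v : V} (h : Link Γ S u v) : u ∈ S := by
  obtain ⟨w, hw⟩ := h
  exact hw u w.start_mem_support

theorem Link.right {S : Finset V} {u v : V} (h : Link Γ S u v) : v ∈ S := h.symm.left

theorem Link.induct {S : Finset V} {u v : V} (h : Link Γ S u v) (P : V → Prop) (hu : P u)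
    (hP : ∀ x ∈ S, ∀ y ∈ S, Γ.Adj x y → P x → P y) : P v := by
  obtain ⟨w, hw⟩ := h
  induction w with
  | nil => exact hu
  | cons h w ih =>
    exact ih (hP _ (hw _ (by simp)) _ (hw _ (by simp)) h hu) fun x hx => hw x (by simp [hx])

theorem Link.of_adj {Γ' : SimpleGraph V} {S : Finset V} {u v : V} (h : Link Γ S u v)
    (hΓ : ∀ x ∈ S, ∀ y ∈ S, Γ.Adj x y → Γ'.Adj x y) : Link Γ' S u v :=
  h.induct (Link Γ' S u) (Link.refl h.left) fun x hx y hy hxy h' =>
    h'.trans (Link.adj hx hy (hΓ x hx y hy hxy))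

/-- `S` is nonempty and connected. -/
def Conn (Γ : SimpleGraph V) (S : Finset V) : Prop := S.Nonempty ∧ ∀ u ∈ S, ∀ v ∈ S, Link Γ S u v

/-- Some edge joins `A` and `B`. -/
def Touch (Γ : SimpleGraph V) (A B : Finset V) : Prop := ∃ u ∈ A, ∃ v ∈ B, Γ.Adj u v

theorem Touch.symm {A B : Finset V} (h : Touch Γ A B) : Touch Γ B A := by
  obtain ⟨u, hu, v, hv, h⟩ := h
  exact ⟨v, hv, u, hu, h.symm⟩

theorem Touch.mono {A B A' B' : Finset V} (h : Touch Γ A B) (hA : A ⊆ A') (hB : B ⊆ B') :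
    Touch Γ A' B' := by
  obtain ⟨u, hu, v, hv, h⟩ := h
  exact ⟨u, hA hu, v, hB hv, h⟩

theorem touch_union {A B C : Finset V} : Touch Γ (A ∪ B) C ↔ Touch Γ A C ∨ Touch Γ B C := by
  constructor
  · rintro ⟨u, hu, h⟩
    exact (mem_union.1 hu).imp (fun hu => ⟨u, hu, h⟩) fun hu => ⟨u, hu, h⟩
  · rintro (h | h)
    · exact h.mono subset_union_left subset_rfl
    · exact h.mono subset_union_right subset_rfl

theorem conn_of {S : Finset V} {r : V} (hr : r ∈ S) (h : ∀ v ∈ S, Link Γ S r v) : Conn Γ S :=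
  ⟨⟨r, hr⟩, fun u hu v hv => (h u hu).symm.trans (h v hv)⟩

theorem conn_singleton (v : V) : Conn Γ {v} :=
  conn_of (mem_singleton_self v) fun u hu => by
    rw [mem_singleton.1 hu]; exact Link.refl (mem_singleton_self v)

theorem Conn.union_touch {A B : Finset V} (hA : Conn Γ A) (hB : Conn Γ B) (h : Touch Γ A B) :
    Conn Γ (A ∪ B) := by
  obtain ⟨u, hu, v, hv, h⟩ := h
  refine conn_of (mem_union_left _ hu) fun x hx => ?_
  rcases mem_union.1 hx with hx | hx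
  · exact (hA.2 u hu x hx).mono subset_union_left
  · exact (Link.adj (mem_union_left _ hu) (mem_union_right _ hv) h).trans
      ((hB.2 v hv x hx).mono subset_union_right)

theorem Conn.union_mem {A B : Finset V} (hA : Conn Γ A) (hB : Conn Γ B) {u : V} (hu : u ∈ A)
    (hv : u ∈ B) : Conn Γ (A ∪ B) := by
  refine conn_of (mem_union_left _ hu) fun x hx => ?_
  rcases mem_union.1 hx with hx | hx
  · exact (hA.2 u hu x hx).mono subset_union_left
  · exact (hB.2 u hv x hx).mono subset_union_right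

/-- Pairwise disjoint connected sets. -/
def Fam (Γ : SimpleGraph V) (𝓑 : Finset (Finset V)) : Prop :=
  (∀ B ∈ 𝓑, Conn Γ B) ∧ ∀ B ∈ 𝓑, ∀ B' ∈ 𝓑, B ≠ B' → Disjoint B B'

/-- A clique minor model. -/
def Model (Γ : SimpleGraph V) (𝓑 : Finset (Finset V)) : Prop :=
  Fam Γ 𝓑 ∧ ∀ B ∈ 𝓑, ∀ B' ∈ 𝓑, B ≠ B' → Touch Γ B B'

/-- `Γ` has a `K_h` minor. -/
def HasK (Γ : SimpleGraph V) (h : ℕ) : Prop := ∃ 𝓑, Model Γ 𝓑 ∧ 𝓑.card = h

theorem Fam.subset {𝓑 𝓒 : Finset (Finset V)} (h : Fam Γ 𝓑) (h' : 𝓒 ⊆ 𝓑) : Fam Γ 𝓒 :=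
  ⟨fun B hB => h.1 B (h' hB), fun B hB B' hB' => h.2 B (h' hB) B' (h' hB')⟩

theorem Fam.insert {𝓑 : Finset (Finset V)} (h : Fam Γ 𝓑) {B : Finset V} (hB : Conn Γ B)
    (hd : ∀ B' ∈ 𝓑, Disjoint B B') : Fam Γ (insert B 𝓑) ∧ B ∉ 𝓑 := by
  refine ⟨⟨by simpa [hB] using h.1, fun C hC C' hC' hne => ?_⟩, fun h' => ?_⟩
  · rcases mem_insert.1 hC with rfl | h1 <;> rcases mem_insert.1 hC' with rfl | h2
    · exact (hne rfl).elim
    · exact hd _ h2
    · exact (hd _ h1).symm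
    · exact h.2 _ h1 _ h2 hne
  · exact hB.1.ne_empty (disjoint_self.1 (hd B h'))

theorem Model.insert {𝓑 : Finset (Finset V)} (h : Model Γ 𝓑) {B : Finset V} (hB : Conn Γ B)
    (hd : ∀ B' ∈ 𝓑, Disjoint B B' ∧ Touch Γ B B') : Model Γ (insert B 𝓑) ∧ B ∉ 𝓑 := by
  obtain ⟨h1, h2⟩ := h.1.insert hB fun B' hB' => (hd B' hB').1
  refine ⟨⟨h1, fun C hC C' hC' hne => ?_⟩, h2⟩
  rcases mem_insert.1 hC with rfl | h3 <;> rcases mem_insert.1 hC' with rfl | h4
  · exact (hne rfl).elim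
  · exact (hd _ h4).2
  · exact (hd _ h3).2.symm
  · exact h.2 _ h3 _ h4 hne

open Classical in
/-- The members of `𝓑` other than `B` touching `B`. -/
noncomputable def nb (Γ : SimpleGraph V) (𝓑 : Finset (Finset V)) (B : Finset V) :
    Finset (Finset V) := 𝓑.filter fun B' => B' ≠ B ∧ Touch Γ B B'

theorem mem_nb {𝓑 : Finset (Finset V)} {B B' : Finset V} :
    B' ∈ nb Γ 𝓑 B ↔ B' ∈ 𝓑 ∧ B' ≠ B ∧ Touch Γ B B' := by
  classical
  simp [nb]

theorem sum_nb_insert {𝓑 : Finset (Finset V)} {B : Finset V} (hB : B ∉ 𝓑) :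
    ∑ C ∈ insert B 𝓑, (nb Γ (insert B 𝓑) C).card =
      ∑ C ∈ 𝓑, (nb Γ 𝓑 C).card + 2 * (nb Γ 𝓑 B).card := by
  classical
  have h1 : nb Γ (insert B 𝓑) B = nb Γ 𝓑 B := by
    ext C
    simp only [mem_nb, mem_insert]
    tauto
  have h2 : ∀ C ∈ 𝓑, (nb Γ (insert B 𝓑) C).card =
      (nb Γ 𝓑 C).card + if C ∈ nb Γ 𝓑 B then 1 else 0 := by
    intro C hC
    have h3 : C ≠ B := fun e => hB (e ▸ hC)
    split_ifs with h
    · rw [← card_insert_of_notMem (a := B) fun h' => hB (mem_nb.1 h').1]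
      congr 1
      ext D
      simp only [mem_nb, mem_insert]
      constructor
      · tauto
      · rintro (rfl | h')
        · exact ⟨Or.inl rfl, h3.symm, (mem_nb.1 h).2.2.symm⟩
        · tauto
    · rw [add_zero]
      congr 1
      ext D
      simp only [mem_nb, mem_insert]
      constructor
      · rintro ⟨rfl | h', h4⟩
        · exact (h (mem_nb.2 ⟨hC, h3, h4.2.symm⟩)).elim
        · exact ⟨h', h4⟩
      · tauto
  rw [sum_insert hB, h1, sum_congr rfl h2, sum_add_distrib, sum_boole, filter_mem_eq_inter,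
    inter_eq_right.2 fun C hC => (mem_nb.1 hC).1]
  simp only [Nat.cast_id]
  ring

theorem mader_aux (h : ℕ) : ∀ 𝓑 : Finset (Finset V), Fam Γ 𝓑 → 𝓑.Nonempty →
    2 ^ h * 𝓑.card ≤ ∑ C ∈ 𝓑, (nb Γ 𝓑 C).card → ∃ 𝓜, Model Γ 𝓜 ∧ 𝓜.card = h ∧
      ∀ M ∈ 𝓜, (∃ B ∈ 𝓑, B ⊆ M) ∧ ∀ v ∈ M, ∃ B ∈ 𝓑, v ∈ B := by
  induction h with
  | zero => exact fun _ _ _ _ => ⟨∅, ⟨⟨by simp, by simp⟩, by simp⟩, rfl, by simp⟩
  | succ h ih =>
    intro 𝓑
    induction hn : 𝓑.card using Nat.strong_induction_on generalizing 𝓑 with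
    | _ n ih' =>
    intro hF hne hsum
    by_cases hc : ∃ B ∈ 𝓑, ∃ B' ∈ nb Γ 𝓑 B, (nb Γ (nb Γ 𝓑 B) B').card < 2 ^ h
    · obtain ⟨B, hB, B', hB', hlt⟩ := hc
      obtain ⟨hB'1, hB'2, hB'3⟩ := mem_nb.1 hB'
      set 𝓡 := (𝓑.erase B).erase B' with hR
      have hRm : ∀ C, C ∈ 𝓡 ↔ C ∈ 𝓑 ∧ C ≠ B ∧ C ≠ B' := fun C => by
        simp only [hR, mem_erase]; tauto
      have e1 : insert B' 𝓡 = 𝓑.erase B := insert_erase (mem_erase.2 ⟨hB'2, hB'1⟩)
      have e2 : insert B (𝓑.erase B) = 𝓑 := insert_erase hB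
      obtain ⟨hF', hnot⟩ := (hF.subset fun C hC => ((hRm C).1 hC).1).insert
        ((hF.1 B hB).union_touch (hF.1 B' hB'1) hB'3) fun C hC => by
          obtain ⟨h1, h2, h3⟩ := (hRm C).1 hC
          exact disjoint_union_left.2 ⟨hF.2 _ hB _ h1 h2.symm, hF.2 _ hB'1 _ h1 h3.symm⟩
      have c1 : 𝓡.card + 2 = n := by
        rw [← hn, ← e2, card_insert_of_notMem (notMem_erase _ _), ← e1,
          card_insert_of_notMem (notMem_erase _ _)]
      have s1 := sum_nb_insert (Γ := Γ) (notMem_erase B 𝓑)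
      have s2 := sum_nb_insert (Γ := Γ) (notMem_erase B' (𝓑.erase B))
      have s3 := sum_nb_insert (Γ := Γ) hnot
      rw [e2] at s1
      rw [← hR, e1] at s2
      have c2 : (nb Γ (𝓑.erase B) B).card ≤ (nb Γ 𝓡 B).card + 1 := by
        refine (card_le_card (t := insert B' (nb Γ 𝓡 B)) fun C hC => ?_).trans (card_insert_le _ _)
        simp only [mem_nb, mem_insert, hRm, mem_erase] at hC ⊢
        tauto
      have c3 : nb Γ 𝓡 B ∪ nb Γ 𝓡 B' ⊆ nb Γ 𝓡 (B ∪ B') := fun C hC => by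
        have h1 : C ∈ 𝓡 → C ≠ B ∪ B' := fun h1 e => hnot (e ▸ h1)
        simp only [mem_nb, mem_union, touch_union] at hC ⊢
        tauto
      have c4 : nb Γ 𝓡 B ∩ nb Γ 𝓡 B' ⊆ nb Γ (nb Γ 𝓑 B) B' := fun C hC => by
        simp only [mem_nb, mem_inter, hRm] at hC ⊢
        tauto
      have c5 := card_union_add_card_inter (nb Γ 𝓡 B) (nb Γ 𝓡 B')
      have c6 := card_le_card c3
      have c7 := card_le_card c4
      obtain ⟨𝓜, h1, h2, h3⟩ := ih' (𝓡.card + 1) (by omega) _ (card_insert_of_notMem hnot) hF'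
        (insert_nonempty _ _) (by
          rw [← c1] at hsum
          have : 2 ^ (h + 1) * (𝓡.card + 2) = 2 ^ (h + 1) * (𝓡.card + 1) + 2 * 2 ^ h := by ring
          omega)
      refine ⟨𝓜, h1, h2, fun M hM => ⟨?_, fun v hv => ?_⟩⟩
      · obtain ⟨C, hC, hCM⟩ := (h3 M hM).1
        rcases mem_insert.1 hC with rfl | hC
        · exact ⟨B, hB, subset_union_left.trans hCM⟩
        · exact ⟨C, ((hRm C).1 hC).1, hCM⟩
      · obtain ⟨C, hC, hvC⟩ := (h3 M hM).2 v hv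
        rcases mem_insert.1 hC with rfl | hC
        · exact (mem_union.1 hvC).elim (fun h => ⟨B, hB, h⟩) fun h => ⟨B', hB'1, h⟩
        · exact ⟨C, ((hRm C).1 hC).1, hvC⟩
    · push Not at hc
      obtain ⟨B, hB, hBne⟩ : ∃ B ∈ 𝓑, (nb Γ 𝓑 B).Nonempty := by
        by_contra hno
        push Not at hno
        rw [sum_eq_zero fun C hC => by rw [hno C hC, card_empty]] at hsum
        have := hne.card_pos
        have : 0 < 2 ^ (h + 1) * n := by rw [← hn]; positivity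
        omega
      have hsub : nb Γ 𝓑 B ⊆ 𝓑 := fun C hC => (mem_nb.1 hC).1
      obtain ⟨𝓜, h1, h2, h3⟩ := ih _ (hF.subset hsub) hBne (by
        rw [mul_comm, ← smul_eq_mul]
        exact card_nsmul_le_sum _ _ _ (hc B hB))
      obtain ⟨h4, h5⟩ := h1.insert (hF.1 B hB) fun M hM => by
        constructor
        · refine disjoint_right.2 fun v hv hv' => ?_
          obtain ⟨C, hC, hvC⟩ := (h3 M hM).2 v hv
          exact disjoint_left.1 (hF.2 _ (hsub hC) _ hB (mem_nb.1 hC).2.1) hvC hv'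
        · obtain ⟨C, hC, hCM⟩ := (h3 M hM).1
          exact (mem_nb.1 hC).2.2.mono subset_rfl hCM
      refine ⟨_, h4, by rw [card_insert_of_notMem h5, h2], fun M hM => ?_⟩
      rcases mem_insert.1 hM with rfl | hM
      · exact ⟨⟨M, hB, subset_rfl⟩, fun v hv => ⟨M, hB, hv⟩⟩
      · obtain ⟨⟨C, hC, hCM⟩, h6⟩ := h3 M hM
        exact ⟨⟨C, hsub hC, hCM⟩, fun v hv => (h6 v hv).imp fun C hC => ⟨hsub hC.1, hC.2⟩⟩

/-- Mader's theorem, for an indexed family of branch sets. -/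
theorem mader {ι : Type} [DecidableEq ι] {h : ℕ} (hK : ¬ HasK Γ h) {A : Finset ι}
    (hA : A.Nonempty) (B : ι → Finset V) (hc : ∀ i ∈ A, Conn Γ (B i))
    (hd : ∀ i ∈ A, ∀ j ∈ A, i ≠ j → Disjoint (B i) (B j)) (N : ι → Finset ι)
    (hN : ∀ i ∈ A, ∀ j ∈ N i, j ∈ A ∧ j ≠ i ∧ Touch Γ (B i) (B j)) :
    ∑ i ∈ A, (N i).card < 2 ^ h * A.card := by
  have hinj : Set.InjOn B A := fun i hi j hj e => by
    by_contra hne
    have := hd i hi j hj hne
    rw [e] at this
    exact (hc j hj).1.ne_empty (disjoint_self.1 this)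
  by_contra hlt
  push Not at hlt
  obtain ⟨𝓜, h1, h2, -⟩ := mader_aux (Γ := Γ) h (A.image B)
    ⟨by simpa using hc, by
      simp only [mem_image]
      rintro _ ⟨i, hi, rfl⟩ _ ⟨j, hj, rfl⟩ hne
      exact hd i hi j hj fun e => hne (e ▸ rfl)⟩ (hA.image B) (by
      rw [card_image_of_injOn hinj, sum_image hinj]
      refine hlt.trans (sum_le_sum fun i hi => ?_)
      refine card_le_card_of_injOn B (fun j hj => ?_) fun j hj j' hj' =>
        hinj (hN i hi j hj).1 (hN i hi j' hj').1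
      obtain ⟨h1, h2, h3⟩ := hN i hi j hj
      exact mem_nb.2 ⟨mem_image_of_mem B h1, fun e => h2 (hinj h1 hi e), h3⟩)
  exact hK ⟨𝓜, h1, h2⟩

theorem tripod {B : Finset V} (hB : Conn Γ B) (t : Fin 3 → V) (ht : ∀ i, t i ∈ B) :
    ∃ (m : V) (L : Fin 3 → Finset V), (∀ i, L i ⊆ B ∧ Link Γ (L i) m (t i)) ∧
      ∀ i j, i ≠ j → ∀ x ∈ L i, x ∈ L j → x = m := by
  obtain ⟨p', hp'⟩ := hB.2 _ (ht 0) _ (ht 1)
  obtain ⟨q, hq⟩ := hB.2 _ (ht 2) _ (ht 0)
  set p := p'.bypass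
  have hp : p.IsPath := p'.bypass_isPath
  have hpB : ∀ x ∈ p.support, x ∈ B := fun x hx => hp' x (p'.support_bypass_subset_support hx)
  obtain ⟨m, hm, hmq, hfirst⟩ := q.exists_mem_support_forall_mem_support_imp_eq
    p.support.toFinset ⟨t 0, by simp⟩
  have hmp : m ∈ p.support := List.mem_toFinset.1 hm
  have h01 : ∀ x ∈ (p.takeUntil m hmp).support, x ∈ (p.dropUntil m hmp).support → x = m := by
    intro x hx hx'
    by_contra hne
    exact (show ((p.takeUntil m hmp).append (p.dropUntil m hmp)).IsPath by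
      rwa [p.take_spec]).ne_of_mem_support_of_append hne hx hx' rfl
  have s0 := p.support_takeUntil_subset_support hmp
  have s1 := p.support_dropUntil_subset_support hmp
  have s2 := q.support_takeUntil_subset_support hmq
  refine ⟨m, ![(p.takeUntil m hmp).support.toFinset, (p.dropUntil m hmp).support.toFinset,
    (q.takeUntil m hmq).support.toFinset], fun i => ?_, fun i j hij x hx hx' => ?_⟩
  · fin_cases i
    · exact ⟨fun x hx => hpB x (s0 (List.mem_toFinset.1 hx)),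
        Link.symm ⟨p.takeUntil m hmp, fun x hx => List.mem_toFinset.2 hx⟩⟩
    · exact ⟨fun x hx => hpB x (s1 (List.mem_toFinset.1 hx)),
        ⟨p.dropUntil m hmp, fun x hx => List.mem_toFinset.2 hx⟩⟩
    · exact ⟨fun x hx => hq x (s2 (List.mem_toFinset.1 hx)),
        Link.symm ⟨q.takeUntil m hmq, fun x hx => List.mem_toFinset.2 hx⟩⟩
  · have h2 : ∀ x ∈ p.support, x ∈ (q.takeUntil m hmq).support → x = m := fun x hx =>
      hfirst x (List.mem_toFinset.2 hx)
    fin_cases i <;> fin_cases j <;> simp at hij hx hx'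
    · exact h01 x hx hx'
    · exact h2 x (s0 hx) hx'
    · exact h01 x hx' hx
    · exact h2 x (s1 hx) hx'
    · exact h2 x (s0 hx') hx
    · exact h2 x (s1 hx') hx

theorem subdivision_of_hasK {W : Type} [Fintype W] (H : SimpleGraph W)
    (hH : ∀ a, (H.neighborSet a).ncard ≤ 3) (hK : HasK Γ (Fintype.card W)) :
    ContainsSubdivision H Γ := by
  classical
  obtain ⟨𝓑, ⟨⟨hc, hd⟩, ht⟩, hcard⟩ := hK
  obtain ⟨e⟩ : Nonempty (W ≃ 𝓑) := ⟨Fintype.equivOfCardEq (by simp [hcard])⟩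
  let B : W → Finset V := fun a => (e a).1
  have hne : ∀ a b, a ≠ b → B a ≠ B b := fun a b h e' => h (e.injective (Subtype.ext e'))
  have hB : ∀ a b x, x ∈ B a → x ∈ B b → a = b := fun a b x h1 h2 => by
    by_contra h
    exact disjoint_left.1 (hd _ (e a).2 _ (e b).2 (hne a b h)) h1 h2
  choose r hr using fun a => (hc _ (e a).2).1
  have h1 : ∀ a b, ∃ u v, a ≠ b → u ∈ B a ∧ v ∈ B b ∧ Γ.Adj u v := fun a b => by
    by_cases h : a = b
    · exact ⟨r a, r a, fun h' => (h' h).elim⟩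
    · obtain ⟨u, hu, v, hv, h'⟩ := ht _ (e a).2 _ (e b).2 (hne a b h)
      exact ⟨u, v, fun _ => ⟨hu, hv, h'⟩⟩
  choose u v huv using h1
  let o := Fintype.equivFin W
  let x : W → W → V := fun a b => if o a < o b then u a b else v b a
  have hx : ∀ a b, a ≠ b → x a b ∈ B a ∧ Γ.Adj (x a b) (x b a) := fun a b h => by
    rcases lt_or_gt_of_ne (o.injective.ne h) with h' | h'
    · simp only [x, if_pos h', if_neg h'.not_gt]
      exact ⟨(huv a b h).1, (huv a b h).2.2⟩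
    · simp only [x, if_pos h', if_neg h'.not_gt]
      exact ⟨(huv b a h.symm).2.1, (huv b a h.symm).2.2.symm⟩
  have h2 : ∀ a, ∃ idx : W → Fin 3, ∀ b c, H.Adj a b → H.Adj a c → idx b = idx c → b = c := by
    intro a
    obtain ⟨f⟩ : Nonempty (H.neighborSet a ↪ Fin 3) :=
      Function.Embedding.nonempty_of_card_le (by
        rw [Fintype.card_fin, ← Nat.card_eq_fintype_card, Nat.card_coe_set_eq]; exact hH a)
    refine ⟨fun b => if h : H.Adj a b then f ⟨b, h⟩ else 0, fun b c hb hc h => ?_⟩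
    simp only [dif_pos hb, dif_pos hc] at h
    exact congrArg Subtype.val (f.injective h)
  choose idx hidx using h2
  have h3 : ∀ a, ∃ t : Fin 3 → V, (∀ i, t i ∈ B a) ∧ ∀ b, H.Adj a b → t (idx a b) = x a b := by
    intro a
    refine ⟨fun i => if h : ∃ b, H.Adj a b ∧ idx a b = i then x a h.choose else r a,
      fun i => ?_, fun b hb => ?_⟩
    · dsimp only
      split_ifs with h
      · exact (hx _ _ h.choose_spec.1.ne).1
      · exact hr a
    · have h : ∃ c, H.Adj a c ∧ idx a c = idx a b := ⟨b, hb, rfl⟩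
      dsimp only
      rw [dif_pos h, hidx a _ b h.choose_spec.1 hb h.choose_spec.2]
  choose t ht1 ht2 using h3
  choose m L hL1 hL2 using fun a => tripod (hc _ (e a).2) (t a) (ht1 a)
  have hm : ∀ a, m a ∈ B a := fun a => (hL1 a 0).1 (hL1 a 0).2.left
  have h4 : ∀ a b, H.Adj a b → ∃ w : Γ.Walk (m a) (m b), w.IsPath ∧
      ∀ y ∈ w.support, y ∈ L a (idx a b) ∨ y ∈ L b (idx b a) := by
    intro a b hab
    have l1 := (hL1 a (idx a b)).2
    have l2 := (hL1 b (idx b a)).2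
    rw [ht2 a b hab] at l1
    rw [ht2 b a hab.symm] at l2
    obtain ⟨w, hw⟩ := ((l1.mono (subset_union_left (s₂ := L b (idx b a)))).trans
      (Link.adj (mem_union_left _ l1.right) (mem_union_right _ l2.right) (hx a b hab.ne).2)).trans
      (l2.symm.mono subset_union_right)
    exact ⟨w.bypass, w.bypass_isPath, fun y hy =>
      mem_union.1 (hw y (w.support_bypass_subset_support hy))⟩
  choose P hP1 hP2 using h4
  have key : ∀ a b a' b', H.Adj a b → H.Adj a' b' → s(a, b) ≠ s(a', b') →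
      ∀ y ∈ L a (idx a b), y ∈ L a' (idx a' b') → y ∈ Set.range m := by
    intro a b a' b' h h' hne y hy hy'
    obtain rfl := hB a a' y ((hL1 _ _).1 hy) ((hL1 _ _).1 hy')
    exact ⟨a, (hL2 a _ _ (fun e => hne (by rw [hidx a b b' h h' e])) y hy hy').symm⟩
  refine ⟨m, P, fun a b h => hB a b _ (hm a) (h ▸ hm b), hP1, fun a b h c hc => ?_,
    fun a b h a' b' h' hne y hy hy' => ?_⟩
  · exact (hP2 a b h _ hc).imp (fun h => hB _ _ _ (hm c) ((hL1 _ _).1 h))
      fun h => hB _ _ _ (hm c) ((hL1 _ _).1 h)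
  · rcases hP2 a b h y hy with h5 | h5 <;> rcases hP2 a' b' h' y hy' with h6 | h6
    · exact key _ _ _ _ h h' hne y h5 h6
    · exact key _ _ _ _ h h'.symm (fun e => hne (e.trans Sym2.eq_swap)) y h5 h6
    · exact key _ _ _ _ h.symm h' (fun e => hne (Sym2.eq_swap.trans e)) y h5 h6
    · exact key _ _ _ _ h.symm h'.symm
        (fun e => hne (Sym2.eq_swap.trans (e.trans Sym2.eq_swap))) y h5 h6

end Pool.Agent.Lib.MP_3b6a8c_pr
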