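import Mathlib

/-! Vertex expanders, bond percolation and subdivisions. -/

namespace Pool.Agent.Lib.MP_3b6a8c_pr

open Classical in
/-- The probability that the random spanning subgraph of `G` keeping each edge independently with
probability `p` has the property `A`. -/
noncomputable def percProb {V : Type} [Fintype V] (G : SimpleGraph V) (p : ℝ)
    (A : SimpleGraph V → Prop) : ℝ :=
  ∑ F ∈ G.edgeFinset.powerset, if A (SimpleGraph.fromEdgeSet (F : Set (Sym2 V))) then
    p ^ F.card * (1 - p) ^ (G.edgeFinset.card - F.card) else 0

/-- `G` has at least `k` vertices and every set of exactly `k` vertices has at least `d * k`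
neighbours outside itself. -/
def IsVertexExpander {V : Type} [Fintype V] (G : SimpleGraph V) (k d : ℕ) : Prop :=
  k ≤ Fintype.card V ∧
    ∀ S : Finset V, S.card = k → d * k ≤ {v | v ∉ S ∧ ∃ u ∈ S, G.Adj u v}.ncard

/-- `G` contains a subdivision of `H`: distinct branch vertices `φ a`, and for each edge `ab` of
`H` a path of `G` from `φ a` to `φ b` through no other branch vertex, paths of different edges
meeting only in branch vertices. -/
def ContainsSubdivision {W V : Type} (H : SimpleGraph W) (G : SimpleGraph V) : Prop :=
  ∃ (φ : W → V) (P : ∀ a b, H.Adj a b → G.Walk (φ a) (φ b)), Function.Injective φ ∧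
    (∀ a b h, (P a b h).IsPath) ∧
    (∀ a b h c, φ c ∈ (P a b h).support → c = a ∨ c = b) ∧
    ∀ a b h a' b' h', s(a, b) ≠ s(a', b') →
      ∀ v ∈ (P a b h).support, v ∈ (P a' b' h').support → v ∈ Set.range φ

end Pool.Agent.Lib.MP_3b6a8c_pr
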