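import Mathlib

/-! Expectations over random subsets of a finite set. -/

set_option linter.unusedSectionVars false

namespace Pool.Agent.Lib.MP_3b6a8c_pr

open Finset

variable {α : Type*} [DecidableEq α]

/-- Expectation of `f` at the `p`-random subset of `E`. -/
noncomputable def Ex (p : ℝ) (E : Finset α) (f : Finset α → ℝ) : ℝ :=
  ∑ F ∈ E.powerset, p ^ F.card * (1 - p) ^ (E.card - F.card) * f F

theorem Ex_empty (p : ℝ) (f : Finset α → ℝ) : Ex p ∅ f = f ∅ := by simp [Ex]

theorem Ex_insert (p : ℝ) {E : Finset α} {e : α} (he : e ∉ E) (f : Finset α → ℝ) :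
    Ex p (insert e E) f = p * Ex p E (fun F => f (insert e F)) + (1 - p) * Ex p E f := by
  unfold Ex
  rw [sum_powerset_insert he, card_insert_of_notMem he, mul_sum, mul_sum, add_comm]
  congr 1 <;> refine sum_congr rfl fun F hF => ?_
  · have h1 : e ∉ F := fun h => he (mem_powerset.1 hF h)
    rw [card_insert_of_notMem h1, Nat.add_sub_add_right]; ring
  · rw [Nat.succ_sub (card_le_card (mem_powerset.1 hF)), pow_succ]; ring

theorem Ex_congr {p : ℝ} {E : Finset α} {f g : Finset α → ℝ} (h : ∀ F ⊆ E, f F = g F) :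
    Ex p E f = Ex p E g :=
  sum_congr rfl fun F hF => by rw [h F (mem_powerset.1 hF)]

theorem Ex_mono {p : ℝ} (h0 : 0 ≤ p) (h1 : p ≤ 1) {E : Finset α} {f g : Finset α → ℝ}
    (h : ∀ F ⊆ E, f F ≤ g F) : Ex p E f ≤ Ex p E g :=
  sum_le_sum fun F hF => mul_le_mul_of_nonneg_left (h F (mem_powerset.1 hF))
    (mul_nonneg (pow_nonneg h0 _) (pow_nonneg (by linarith) _))

theorem Ex_const (p : ℝ) (E : Finset α) (c : ℝ) : Ex p E (fun _ => c) = c := by
  induction E using Finset.induction_on with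
  | empty => exact Ex_empty _ _
  | insert e E he ih => rw [Ex_insert p he, ih]; ring

theorem Ex_add (p : ℝ) (E : Finset α) (f g : Finset α → ℝ) :
    Ex p E (fun F => f F + g F) = Ex p E f + Ex p E g := by
  simp only [Ex, mul_add, sum_add_distrib]

theorem Ex_sub (p : ℝ) (E : Finset α) (f g : Finset α → ℝ) :
    Ex p E (fun F => f F - g F) = Ex p E f - Ex p E g := by
  simp only [Ex, mul_sub, sum_sub_distrib]

theorem Ex_mul (p : ℝ) (E : Finset α) (c : ℝ) (f : Finset α → ℝ) :
    Ex p E (fun F => c * f F) = c * Ex p E f := by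
  simp only [Ex, mul_sum]
  exact sum_congr rfl fun F _ => by ring

theorem Ex_sum {ι : Type*} (p : ℝ) (E : Finset α) (s : Finset ι) (f : ι → Finset α → ℝ) :
    Ex p E (fun F => ∑ i ∈ s, f i F) = ∑ i ∈ s, Ex p E (f i) := by
  simp only [Ex, mul_sum]
  exact sum_comm

theorem Ex_nonneg {p : ℝ} (h0 : 0 ≤ p) (h1 : p ≤ 1) {E : Finset α} {f : Finset α → ℝ}
    (h : ∀ F ⊆ E, 0 ≤ f F) : 0 ≤ Ex p E f :=
  (Ex_const p E 0).symm.trans_le (Ex_mono h0 h1 h)

theorem Ex_le {p : ℝ} (h0 : 0 ≤ p) (h1 : p ≤ 1) {E : Finset α} {f : Finset α → ℝ} {c : ℝ}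
    (h : ∀ F ⊆ E, f F ≤ c) : Ex p E f ≤ c :=
  (Ex_mono h0 h1 h).trans_eq (Ex_const p E c)

theorem Ex_union (p : ℝ) {E₁ E₂ : Finset α} (h : Disjoint E₁ E₂) (f : Finset α → ℝ) :
    Ex p (E₁ ∪ E₂) f = Ex p E₁ fun F₁ => Ex p E₂ fun F₂ => f (F₁ ∪ F₂) := by
  induction E₁ using Finset.induction_on generalizing f with
  | empty => simp [Ex_empty]
  | insert e E he ih =>
    rw [disjoint_insert_left] at h
    rw [insert_union, Ex_insert p (by simp [he, h.1]), Ex_insert p he, ih h.2, ih h.2]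
    simp only [insert_union]

theorem Ex_subset (p : ℝ) {E J : Finset α} (h : J ⊆ E) :
    Ex p E (fun F => if J ⊆ F then 1 else 0) = p ^ J.card := by
  induction J using Finset.induction_on generalizing E with
  | empty => simp [Ex_const]
  | insert e J he ih =>
    have h1 : e ∈ E := h (mem_insert_self _ _)
    have h2 : J ⊆ E.erase e := fun x hx =>
      mem_erase.2 ⟨fun e' => he (e' ▸ hx), h (mem_insert_of_mem hx)⟩
    rw [← insert_erase h1, Ex_insert p (notMem_erase e E), card_insert_of_notMem he,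
      Ex_congr (g := fun F => if J ⊆ F then 1 else 0), ih h2,
      Ex_congr (g := fun _ => 0), Ex_const]
    · ring
    · intro F hF
      rw [if_neg]
      exact fun h' => notMem_erase e E (hF (h' (mem_insert_self _ _)))
    · intro F _
      simp only [insert_subset_iff, mem_insert_self, true_and, subset_insert_iff_of_notMem he]

open Classical in
/-- Probability of an event. -/
noncomputable def Pr (p : ℝ) (E : Finset α) (A : Finset α → Prop) : ℝ :=
  Ex p E fun F => if A F then 1 else 0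

theorem Pr_mono {p : ℝ} (h0 : 0 ≤ p) (h1 : p ≤ 1) {E : Finset α} {A B : Finset α → Prop}
    (h : ∀ F ⊆ E, A F → B F) : Pr p E A ≤ Pr p E B :=
  Ex_mono h0 h1 fun F hF => by
    split_ifs with h2 h3
    · exact le_rfl
    · exact (h3 (h F hF h2)).elim
    · exact zero_le_one
    · exact le_rfl

theorem Pr_not (p : ℝ) (E : Finset α) (A : Finset α → Prop) :
    Pr p E (fun F => ¬ A F) = 1 - Pr p E A := by
  unfold Pr
  rw [eq_sub_iff_add_eq, ← Ex_add]
  refine (Ex_congr fun F _ => ?_).trans (Ex_const p E 1)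
  by_cases h : A F <;> simp [h]

end Pool.Agent.Lib.MP_3b6a8c_pr
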