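import Pool.Agent.Lib.MP_3b6a8c_pr.Conn

/-! Separators and hyperfiniteness of graphs without a clique minor. -/

set_option linter.unusedSectionVars false

namespace Pool.Agent.Lib.MP_3b6a8c_pr

open Finset SimpleGraph

variable {V : Type} [DecidableEq V] {Γ : SimpleGraph V}

open Classical in
/-- The neighbours of `S` in `U` outside `S`. -/
noncomputable def nh (Γ : SimpleGraph V) (U S : Finset V) : Finset V :=
  U.filter fun y => y ∉ S ∧ ∃ u ∈ S, Γ.Adj u y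

theorem mem_nh {U S : Finset V} {y : V} :
    y ∈ nh Γ U S ↔ y ∈ U ∧ y ∉ S ∧ ∃ u ∈ S, Γ.Adj u y := by
  classical
  simp [nh]

theorem disjoint_nh (U S : Finset V) : Disjoint S (nh Γ U S) :=
  disjoint_right.2 fun _ h => (mem_nh.1 h).2.1

theorem ball {R : Finset V} {x : ℝ} (hx : 0 < x)
    (hexp : ∀ Y ⊆ R, Y.Nonempty → 2 * Y.card ≤ R.card → (Y.card : ℝ) ≤ x * (nh Γ R Y).card)
    {v : V} (hv : v ∈ R) (r : ℕ) : ∃ Y ⊆ R, v ∈ Y ∧
      (∀ u ∈ Y, ∃ Z ⊆ R, Conn Γ Z ∧ v ∈ Z ∧ u ∈ Z ∧ Z.card ≤ r + 1) ∧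
      (R.card < 2 * Y.card ∨ (1 + 1 / x) ^ r ≤ Y.card) := by
  induction r with
  | zero =>
    refine ⟨{v}, by simpa, by simp, fun u hu => ⟨{v}, by simpa, conn_singleton v, by simp, hu,
      by simp⟩, Or.inr (by simp)⟩
  | succ r ih =>
    obtain ⟨Y, hY, hvY, h1, h2⟩ := ih
    have h3 : ∀ u ∈ Y, ∃ Z ⊆ R, Conn Γ Z ∧ v ∈ Z ∧ u ∈ Z ∧ Z.card ≤ r + 1 + 1 := fun u hu =>
      (h1 u hu).imp fun Z hZ => ⟨hZ.1, hZ.2.1, hZ.2.2.1, hZ.2.2.2.1, hZ.2.2.2.2.trans (by omega)⟩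
    by_cases h : R.card < 2 * Y.card
    · exact ⟨Y, hY, hvY, h3, Or.inl h⟩
    refine ⟨Y ∪ nh Γ R Y, union_subset hY fun y hy => (mem_nh.1 hy).1, mem_union_left _ hvY,
      fun u hu => ?_, Or.inr ?_⟩
    · rcases mem_union.1 hu with hu | hu
      · exact h3 u hu
      · obtain ⟨h4, -, w, hw, h5⟩ := mem_nh.1 hu
        obtain ⟨Z, z1, z2, z3, z4, z5⟩ := h1 w hw
        refine ⟨Z ∪ {u}, union_subset z1 (by simpa), z2.union_touch (conn_singleton u)
          ⟨w, z4, u, by simp, h5⟩, mem_union_left _ z3, by simp, ?_⟩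
        exact (card_union_le _ _).trans (by simp; omega)
    · have h4 := hexp Y hY ⟨v, hvY⟩ (by omega)
      have h5 := h2.resolve_left h
      rw [card_union_of_disjoint (disjoint_nh R Y), pow_succ]
      push_cast
      have h6 : (Y.card : ℝ) / x ≤ (nh Γ R Y).card := by rw [div_le_iff₀ hx]; linarith
      calc (1 + 1 / x) ^ r * (1 + 1 / x) ≤ Y.card * (1 + 1 / x) :=
            mul_le_mul_of_nonneg_right h5 (by positivity)
        _ = Y.card + Y.card / x := by ring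
        _ ≤ _ := by linarith

theorem new_branch {R : Finset V} {x : ℝ} (hx : 0 < x)
    (hexp : ∀ Y ⊆ R, Y.Nonempty → 2 * Y.card ≤ R.card → (Y.card : ℝ) ≤ x * (nh Γ R Y).card)
    {r : ℕ} (hr : (R.card : ℝ) ≤ (1 + 1 / x) ^ r) {v : V} (hv : v ∈ R) (𝓑 : Finset (Finset V))
    (h : ∀ B ∈ 𝓑, Touch Γ B R) : ∃ Z ⊆ R, Conn Γ Z ∧ v ∈ Z ∧ Z.card ≤ 1 + 𝓑.card * (2 * r + 2) ∧
      ∀ B ∈ 𝓑, Touch Γ Z B := by
  have hb : ∀ u ∈ R, ∃ Y ⊆ R, (∀ w ∈ Y, ∃ Z ⊆ R, Conn Γ Z ∧ u ∈ Z ∧ w ∈ Z ∧ Z.card ≤ r + 1) ∧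
      R.card < 2 * Y.card := fun u hu => by
    obtain ⟨Y, h1, h2, h3, h4⟩ := ball hx hexp hu r
    refine ⟨Y, h1, h3, h4.elim id fun h4 => ?_⟩
    have h5 : R.card ≤ Y.card := by exact_mod_cast hr.trans h4
    have := card_pos.2 ⟨u, h2⟩
    omega
  induction 𝓑 using Finset.induction_on with
  | empty => exact ⟨{v}, by simpa, conn_singleton v, by simp, by simp, by simp⟩
  | insert B 𝓑 hB ih =>
    obtain ⟨Z, z1, z2, z3, z4, z5⟩ := ih fun B' hB' => h B' (mem_insert_of_mem hB')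
    obtain ⟨b, hb', u, hu, hbu⟩ := h B (mem_insert_self _ _)
    obtain ⟨Y, y1, y2, y3⟩ := hb v hv
    obtain ⟨Y', y1', y2', y3'⟩ := hb u hu
    obtain ⟨w, hw⟩ : (Y ∩ Y').Nonempty := by
      have h1 := card_union_add_card_inter Y Y'
      have h2 := card_le_card (union_subset y1 y1')
      exact card_pos.1 (by omega)
    obtain ⟨Z₁, a1, a2, a3, a4, a5⟩ := y2 w (mem_inter.1 hw).1
    obtain ⟨Z₂, b1, b2, b3, b4, b5⟩ := y2' w (mem_inter.1 hw).2
    refine ⟨Z ∪ (Z₁ ∪ Z₂), union_subset z1 (union_subset a1 b1),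
      z2.union_mem (a2.union_mem b2 a4 b4) z3 (mem_union_left _ a3), mem_union_left _ z3, ?_,
      fun B' hB' => ?_⟩
    · have h1 := card_union_le Z (Z₁ ∪ Z₂)
      have h2 := card_union_le Z₁ Z₂
      rw [card_insert_of_notMem hB, add_mul]
      omega
    · rcases mem_insert.1 hB' with rfl | hB'
      · exact ⟨u, mem_union_right _ (mem_union_right _ b3), b, hb', hbu.symm⟩
      · exact (z5 B' hB').mono subset_union_left subset_rfl

theorem sep_aux {h : ℕ} (hK : ¬ HasK Γ h) {U : Finset V} {x : ℝ} (hx : 0 < x) {r z : ℕ}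
    (hr : (U.card : ℝ) ≤ (1 + 1 / x) ^ r) (hz : z = 1 + h * (2 * r + 2)) (hzU : 3 * z ≤ U.card)
    (μ : ℕ) : ∀ (𝓑 : Finset (Finset V)) (R A S : Finset V), 2 * R.card + 𝓑.card < μ →
      Model Γ 𝓑 → 𝓑.card ≤ h → (∀ B ∈ 𝓑, B ⊆ U ∧ B.card ≤ z ∧ Disjoint B R ∧ Disjoint B A) →
      R ⊆ U → A ⊆ U → Disjoint A R → ¬ Touch Γ A R → 3 * A.card ≤ 2 * U.card →
      x * S.card ≤ A.card → (∀ v ∈ U, v ∈ R ∨ v ∈ A ∨ v ∈ S ∨ ∃ B ∈ 𝓑, v ∈ B) →
      ∃ A ⊆ U, ∃ B ⊆ U, Disjoint A B ∧ ¬ Touch Γ A B ∧ 3 * A.card ≤ 2 * U.card ∧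
        3 * B.card ≤ 2 * U.card ∧ ((U \ (A ∪ B)).card : ℝ) ≤ U.card / x + h * z := by
  induction μ with
  | zero => intro _ _ _ _ h; omega
  | succ μ ih =>
  intro 𝓑 R A S hμ hM hh hB hR hA hAR hT hA3 hS hcov
  by_cases hR3 : 3 * R.card ≤ 2 * U.card
  · refine ⟨A, hA, R, hR, hAR, hT, hA3, hR3, ?_⟩
    have h1 : U \ (A ∪ R) ⊆ S ∪ 𝓑.biUnion id := fun v hv => by
      have := hcov v (mem_sdiff.1 hv).1
      simp only [mem_sdiff, mem_union, mem_biUnion, id] at hv ⊢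
      tauto
    have h2 : (𝓑.biUnion id).card ≤ h * z :=
      (card_biUnion_le_card_mul _ _ z fun B hB' => (hB B hB').2.1).trans
        (Nat.mul_le_mul_right _ hh)
    have h3 : (U \ (A ∪ R)).card ≤ S.card + h * z :=
      (card_le_card h1).trans ((card_union_le _ _).trans (by omega))
    have h4 : (S.card : ℝ) ≤ U.card / x := by
      rw [le_div_iff₀ hx]
      have : (A.card : ℝ) ≤ U.card := by exact_mod_cast card_le_card hA
      linarith
    have h5 : ((U \ (A ∪ R)).card : ℝ) ≤ S.card + h * z := by exact_mod_cast h3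
    linarith
  have hAR' : A.card + R.card ≤ U.card := by
    rw [← card_union_of_disjoint hAR]; exact card_le_card (union_subset hA hR)
  by_cases ha : ∃ B ∈ 𝓑, ¬ Touch Γ B R
  · obtain ⟨B, hB', hBR⟩ := ha
    obtain ⟨b1, b2, b3, b4⟩ := hB B hB'
    have h1 := card_erase_add_one hB'
    have h2 := card_union_le A B
    refine ih (𝓑.erase B) R (A ∪ B) S (by omega)
      ⟨hM.1.subset (erase_subset _ _), fun C hC C' hC' =>
        hM.2 C (mem_of_mem_erase hC) C' (mem_of_mem_erase hC')⟩ (by omega) (fun C hC => ?_) hR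
      (union_subset hA b1) (disjoint_union_left.2 ⟨hAR, b3⟩)
      (fun h' => (touch_union.1 h').elim hT hBR) (by omega) (hS.trans ?_) fun v hv => ?_
    · obtain ⟨c1, c2, c3, c4⟩ := hB C (mem_of_mem_erase hC)
      exact ⟨c1, c2, c3, disjoint_union_right.2
        ⟨c4, hM.1.2 _ (mem_of_mem_erase hC) _ hB' (mem_erase.1 hC).1⟩⟩
    · exact_mod_cast card_le_card subset_union_left
    · rcases hcov v hv with h | h | h | ⟨C, hC, h⟩
      · exact Or.inl h
      · exact Or.inr (Or.inl (mem_union_left _ h))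
      · exact Or.inr (Or.inr (Or.inl h))
      · by_cases e : C = B
        · exact Or.inr (Or.inl (mem_union_right _ (e ▸ h)))
        · exact Or.inr (Or.inr (Or.inr ⟨C, mem_erase.2 ⟨e, hC⟩, h⟩))
  by_cases hb : ∃ Y ⊆ R, Y.Nonempty ∧ 2 * Y.card ≤ R.card ∧ x * (nh Γ R Y).card < Y.card
  · obtain ⟨Y, y1, y2, y3, y4⟩ := hb
    have h1 : (R \ (Y ∪ nh Γ R Y)).card < R.card := by
      obtain ⟨y, hy⟩ := y2
      exact card_lt_card ⟨sdiff_subset, fun h' => by simpa [hy] using h' (y1 hy)⟩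
    have h2 := card_union_of_disjoint (hAR.mono_right y1)
    refine ih 𝓑 (R \ (Y ∪ nh Γ R Y)) (A ∪ Y) (S ∪ nh Γ R Y) (by omega) hM hh (fun C hC => ?_)
      (sdiff_subset.trans hR) (union_subset hA (y1.trans hR))
      (disjoint_union_left.2 ⟨hAR.mono_right sdiff_subset,
        disjoint_sdiff.mono_left subset_union_left⟩) (fun h' => ?_) (by omega) ?_ fun v hv => ?_
    · obtain ⟨c1, c2, c3, c4⟩ := hB C hC
      exact ⟨c1, c2, c3.mono_right sdiff_subset, disjoint_union_right.2 ⟨c4, c3.mono_right y1⟩⟩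
    · rcases touch_union.1 h' with h' | ⟨u, hu, v, hv, h'⟩
      · exact hT (h'.mono subset_rfl sdiff_subset)
      · simp only [mem_sdiff, mem_union, mem_nh, not_or] at hv
        exact hv.2.2 ⟨hv.1, hv.2.1, u, hu, h'⟩
    · have h3 : ((S ∪ nh Γ R Y).card : ℝ) ≤ S.card + (nh Γ R Y).card := by
        exact_mod_cast card_union_le _ _
      rw [h2]
      push_cast
      nlinarith
    · have := hcov v hv
      simp only [mem_sdiff, mem_union]
      tauto
  · push Not at ha hb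
    obtain ⟨v, hv⟩ : R.Nonempty := card_pos.1 (by omega)
    obtain ⟨Z, z1, z2, z3, z4, z5⟩ := new_branch hx hb (r := r)
      (le_trans (by exact_mod_cast card_le_card hR) hr) hv 𝓑 ha
    obtain ⟨h1, h2⟩ := hM.insert z2 fun C hC => ⟨((hB C hC).2.2.1.mono_right z1).symm, z5 C hC⟩
    have h3 : 𝓑.card ≠ h := fun e => hK ⟨𝓑, hM, e⟩
    have h4 := card_insert_of_notMem h2
    have h5 : (R \ Z).card < R.card :=
      card_lt_card ⟨sdiff_subset, fun h' => by simpa [z3] using h' hv⟩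
    refine ih (insert Z 𝓑) (R \ Z) A S (by omega) h1 (by omega) (fun C hC => ?_)
      (sdiff_subset.trans hR) hA (hAR.mono_right sdiff_subset)
      (fun h' => hT (h'.mono subset_rfl sdiff_subset)) hA3 hS fun u hu => ?_
    · rcases mem_insert.1 hC with rfl | hC
      · exact ⟨z1.trans hR, z4.trans (by rw [hz]; gcongr), disjoint_sdiff,
          (hAR.mono_right z1).symm⟩
      · obtain ⟨c1, c2, c3, c4⟩ := hB C hC
        exact ⟨c1, c2, c3.mono_right sdiff_subset, c4⟩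
    · have := hcov u hu
      simp only [mem_sdiff, mem_insert, exists_eq_or_imp]
      tauto

theorem separator {h : ℕ} (hK : ¬ HasK Γ h) (U : Finset V) {x : ℝ} (hx : 1 ≤ x)
    (hU : x ^ 4 = U.card) : ∃ A ⊆ U, ∃ B ⊆ U, Disjoint A B ∧ ¬ Touch Γ A B ∧
      3 * A.card ≤ 2 * U.card ∧ 3 * B.card ≤ 2 * U.card ∧
      ((U \ (A ∪ B)).card : ℝ) ≤ 40 * (h + 1) ^ 2 * x ^ 3 := by
  set t := ⌈x ^ 3⌉₊ with ht
  have hx3 : 1 ≤ x ^ 3 := one_le_pow₀ hx
  have t1 : x ^ 3 ≤ t := Nat.le_ceil _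
  have t2 : (t : ℝ) ≤ 2 * x ^ 3 := by
    have := Nat.ceil_lt_add_one (show 0 ≤ x ^ 3 by positivity)
    linarith
  have hh : (0 : ℝ) ≤ h := Nat.cast_nonneg h
  have hz : ((1 + h * (2 * (2 * t) + 2) : ℕ) : ℝ) ≤ (1 + 10 * h) * x ^ 3 := by
    push_cast
    nlinarith [mul_le_mul_of_nonneg_left t2 hh, mul_le_mul_of_nonneg_left hx3 hh]
  by_cases hc : 3 * (1 + h * (2 * (2 * t) + 2)) ≤ U.card
  · have hr : (U.card : ℝ) ≤ (1 + 1 / x) ^ (2 * t) := by
      have h1 := one_add_mul_le_pow (show (-2 : ℝ) ≤ 1 / x by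
        have : 0 ≤ 1 / x := by positivity
        linarith) t
      have h2 : x ^ 2 ≤ t * (1 / x) := by
        rw [mul_one_div, le_div_iff₀ (by positivity)]; nlinarith
      rw [← hU, mul_comm, pow_mul]
      calc x ^ 4 = (x ^ 2) ^ 2 := by ring
        _ ≤ _ := pow_le_pow_left₀ (by positivity) (by linarith) 2
    obtain ⟨A, a1, B, b1, h1, h2, h3, h4, h5⟩ := sep_aux hK (by linarith) hr rfl hc _ ∅ U ∅ ∅
      (Nat.lt_succ_self _) ⟨⟨by simp, by simp⟩, by simp⟩ (by simp) (by simp) subset_rfl (by simp)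
      (by simp) (by simp [Touch]) (by simp) (by simp) (by simp +contextual)
    refine ⟨A, a1, B, b1, h1, h2, h3, h4, h5.trans ?_⟩
    have h6 : (U.card : ℝ) / x = x ^ 3 := by rw [← hU]; field_simp
    rw [h6]
    nlinarith [mul_le_mul_of_nonneg_left hz hh, mul_nonneg hh (zero_le_one.trans hx3),
      mul_nonneg (mul_nonneg hh hh) (zero_le_one.trans hx3)]
  · refine ⟨∅, by simp, ∅, by simp, by simp, by simp [Touch], by simp, by simp, ?_⟩
    have h1 : (U.card : ℝ) ≤ 3 * ((1 + h * (2 * (2 * t) + 2) : ℕ) : ℝ) := by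
      exact_mod_cast (not_le.1 hc).le
    simp only [union_empty, sdiff_empty]
    nlinarith [mul_nonneg hh (zero_le_one.trans hx3),
      mul_nonneg (mul_nonneg hh hh) (zero_le_one.trans hx3)]

theorem root_pow (m : ℕ) : √√(m : ℝ) ^ 4 = m := by
  rw [show √√(m : ℝ) ^ 4 = (√√(m : ℝ) ^ 2) ^ 2 by ring, Real.sq_sqrt (Real.sqrt_nonneg _),
    Real.sq_sqrt (Nat.cast_nonneg _)]

theorem small_boundary (h : ℕ) {η : ℝ} (hη : 0 < η) (hη' : η ≤ 1 / 8) : ∃ C : ℕ,
    ∀ (V : Type) [DecidableEq V] (Γ : SimpleGraph V), ¬ HasK Γ h → ∀ U : Finset V, U.Nonempty →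
      ∃ Y ⊆ U, Y.Nonempty ∧ Y.card ≤ C ∧ ((nh Γ U Y).card : ℝ) ≤ η * Y.card := by
  set c : ℝ := 40 * (h + 1) ^ 2 with hc
  have hc1 : 1 ≤ c := by
    have : (0 : ℝ) ≤ h := Nat.cast_nonneg h
    nlinarith
  refine ⟨⌈(600 * c / η) ^ 4⌉₊, fun V _ Γ hK U hU => ?_⟩
  classical
  let ok : Finset V → Prop := fun Y => Y.Nonempty ∧ ((nh Γ U Y).card : ℝ) ≤ η * Y.card ∧
    ((nh Γ U Y).card : ℝ) ≤ 500 * c * √√(Y.card : ℝ) ^ 3
  obtain ⟨Y, hY, hmin⟩ := exists_min_image (U.powerset.filter ok) card ⟨U, by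
    have : nh Γ U U = ∅ := eq_empty_of_forall_notMem fun y hy => (mem_nh.1 hy).2.1 (mem_nh.1 hy).1
    simp only [mem_filter, mem_powerset, subset_rfl, ok, hU, this, card_empty, true_and]
    constructor <;> push_cast <;> positivity⟩
  obtain ⟨hYU, y1, y2, y3⟩ : Y ⊆ U ∧ ok Y := by simpa using hY
  refine ⟨Y, hYU, y1, ?_, y2⟩
  by_contra hlt
  set x := √√(Y.card : ℝ) with hx
  have hx4 : x ^ 4 = Y.card := root_pow _
  have hx0 : 0 ≤ x := Real.sqrt_nonneg _
  have hxc : 600 * c / η ≤ x := by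
    refine le_of_not_gt fun h' => hlt ?_
    have := pow_le_pow_left₀ hx0 h'.le 4
    exact_mod_cast (hx4 ▸ this).trans (Nat.le_ceil _)
  rw [div_le_iff₀ hη] at hxc
  have hx1 : 4800 * c ≤ x := by nlinarith
  set N := nh Γ U Y with hN
  have hYN : ((Y ∪ N).card : ℝ) = Y.card + N.card := by
    rw [card_union_of_disjoint (disjoint_nh U Y)]; push_cast; rfl
  have hN0 : (0 : ℝ) ≤ N.card := Nat.cast_nonneg _
  have hY0 : (0 : ℝ) ≤ Y.card := Nat.cast_nonneg _
  have hN8 : (N.card : ℝ) ≤ Y.card / 8 := by nlinarith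
  set x' := √√((Y ∪ N).card : ℝ) with hx'
  have hx4' : x' ^ 4 = (Y ∪ N).card := root_pow _
  have hx0' : 0 ≤ x' := Real.sqrt_nonneg _
  have hxx : x ≤ x' := le_of_not_gt fun h' => by
    have := pow_lt_pow_left₀ h' hx0' (n := 4) (by norm_num)
    linarith
  have hxx' : x' ≤ 2 * x := le_of_not_gt fun h' => by
    have := pow_lt_pow_left₀ h' (by positivity) (n := 4) (by norm_num)
    nlinarith
  obtain ⟨A, a1, B, b1, h1, h2, h3, h4, h5⟩ := separator hK (Y ∪ N) (by linarith) hx4'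
  set S := (Y ∪ N) \ (A ∪ B) with hS
  have hs : (S.card : ℝ) ≤ 8 * c * x ^ 3 := by
    have := pow_le_pow_left₀ hx0' hxx' 3
    rw [← hc] at h5
    nlinarith
  have key : ∀ A B : Finset V, ¬ Touch Γ A B → 3 * A.card ≤ 2 * (Y ∪ N).card →
      S = (Y ∪ N) \ (A ∪ B) →
      535 * c * (A ∩ Y).card ≤ x * (S.card + (A ∩ N).card) := by
    intro A B h2 h3 hS
    have h6 : nh Γ U (A ∩ Y) ⊆ S ∪ A ∩ N := fun y hy => by
      obtain ⟨k1, k2, u, hu, k3⟩ := mem_nh.1 hy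
      have k4 : y ∉ B := fun k => h2 ⟨u, (mem_inter.1 hu).1, y, k, k3⟩
      have k5 : y ∉ Y → y ∈ N := fun k => mem_nh.2 ⟨k1, k, u, (mem_inter.1 hu).2, k3⟩
      simp only [hS, mem_union, mem_sdiff, mem_inter] at k2 ⊢
      tauto
    have h7 : ((nh Γ U (A ∩ Y)).card : ℝ) ≤ S.card + (A ∩ N).card := by
      exact_mod_cast (card_le_card h6).trans (card_union_le _ _)
    refine le_trans ?_ (mul_le_mul_of_nonneg_left h7 hx0)
    rcases (A ∩ Y).eq_empty_or_nonempty with he | he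
    · rw [he]; simp only [card_empty, Nat.cast_zero, mul_zero]; positivity
    have h8 : ((A ∩ Y).card : ℝ) ≤ 3 / 4 * Y.card := by
      have k1 : ((A ∩ Y).card : ℝ) ≤ A.card := by exact_mod_cast card_le_card inter_subset_left
      have k2 : (3 * A.card : ℝ) ≤ 2 * (Y ∪ N).card := by exact_mod_cast h3
      linarith
    have h9 : (0 : ℝ) < (A ∩ Y).card := by exact_mod_cast he.card_pos
    have h10 : ¬ ok (A ∩ Y) := fun k => by
      have : (Y.card : ℝ) ≤ (A ∩ Y).card := by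
        exact_mod_cast hmin _ (mem_filter.2 ⟨mem_powerset.2 (inter_subset_right.trans hYU), k⟩)
      linarith
    simp only [ok, he, true_and, not_and_or, not_le] at h10
    rcases h10 with k | k
    · nlinarith [mul_le_mul_of_nonneg_left k.le hx0, mul_le_mul_of_nonneg_right hxc h9.le]
    · set y := √√((A ∩ Y).card : ℝ) with hy
      have hy4 : y ^ 4 = (A ∩ Y).card := root_pow _
      have hy0 : 0 ≤ y := Real.sqrt_nonneg _
      have k1 : 1.07 * y ≤ x := le_of_not_gt fun h' => by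
        have := pow_lt_pow_left₀ h' hx0 (n := 4) (by norm_num)
        nlinarith
      have k2 : 0 ≤ 500 * c * y ^ 3 := by positivity
      rw [← hy4]
      nlinarith [mul_le_mul_of_nonneg_left k.le hx0, mul_le_mul_of_nonneg_right k1 k2]
  have k1 := key A B h2 h3 hS
  have k2 := key B A (fun h' => h2 h'.symm) h4 (by rw [hS, union_comm A])
  have k3 : ((A ∩ N).card : ℝ) + (B ∩ N).card ≤ N.card := by
    exact_mod_cast (card_union_of_disjoint (h1.mono inter_subset_left inter_subset_left)).symm.trans_le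
      (card_le_card (union_subset inter_subset_right inter_subset_right))
  have k4 : (Y.card : ℝ) ≤ (A ∩ Y).card + (B ∩ Y).card + S.card := by
    have : Y ⊆ A ∩ Y ∪ B ∩ Y ∪ S := fun y hy => by
      simp only [hS, mem_union, mem_sdiff, mem_inter]
      tauto
    exact_mod_cast (card_le_card this).trans ((card_union_le _ _).trans
      (Nat.add_le_add_right (card_union_le _ _) _))
  have k5 : 535 * c * (x ^ 4 - 8 * c * x ^ 3) ≤ x * (16 * c * x ^ 3 + 500 * c * x ^ 3) := by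
    have l1 : x * (S.card + (A ∩ N).card) + x * (S.card + (B ∩ N).card) ≤
        x * (16 * c * x ^ 3 + 500 * c * x ^ 3) := by
      rw [← mul_add]; exact mul_le_mul_of_nonneg_left (by linarith) hx0
    have l2 : 535 * c * (x ^ 4 - 8 * c * x ^ 3) ≤ 535 * c * ((A ∩ Y).card + (B ∩ Y).card) :=
      mul_le_mul_of_nonneg_left (by linarith) (by positivity)
    linarith
  have k6 : 0 < c * x ^ 3 := by
    have : 0 < x := by linarith
    positivity
  nlinarith

theorem hyperfinite (h : ℕ) {η : ℝ} (hη : 0 < η) (hη' : η ≤ 1 / 8) : ∃ C : ℕ,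
    ∀ (V : Type) [DecidableEq V] (Γ : SimpleGraph V), ¬ HasK Γ h → ∀ U : Finset V,
      ∃ X ⊆ U, (X.card : ℝ) ≤ η * U.card ∧ ∀ Z ⊆ U \ X, Conn Γ Z → Z.card ≤ C := by
  obtain ⟨C, hC⟩ := small_boundary h hη hη'
  refine ⟨C, fun V _ Γ hK U => ?_⟩
  induction U using Finset.strongInduction with
  | H U ih =>
  rcases U.eq_empty_or_nonempty with rfl | hU
  · exact ⟨∅, by simp, by simp, fun Z hZ _ => by simp at hZ; simp [hZ]⟩
  obtain ⟨Y, y1, ⟨y, hy⟩, y3, y4⟩ := hC V Γ hK U hU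
  obtain ⟨X, x1, x2, x3⟩ := ih (U \ (Y ∪ nh Γ U Y))
    ⟨sdiff_subset, fun h' => by simpa [hy] using h' (y1 hy)⟩
  refine ⟨X ∪ nh Γ U Y, union_subset (x1.trans sdiff_subset) fun v hv => (mem_nh.1 hv).1, ?_,
    fun Z hZ hc => ?_⟩
  · have h1 : ((X ∪ nh Γ U Y).card : ℝ) ≤ X.card + (nh Γ U Y).card := by
      exact_mod_cast card_union_le _ _
    have h2 : ((U \ (Y ∪ nh Γ U Y)).card : ℝ) + Y.card ≤ U.card := by
      exact_mod_cast (card_union_of_disjoint
        (sdiff_disjoint.mono_right subset_union_left)).symm.trans_le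
        (card_le_card (union_subset sdiff_subset y1))
    nlinarith
  · by_cases h1 : ∃ u ∈ Z, u ∈ Y
    · obtain ⟨u, hu, hu'⟩ := h1
      refine (card_le_card fun v hv => ?_).trans y3
      refine (hc.2 u hu v hv).induct (· ∈ Y) hu' fun a _ b hb hab ha => ?_
      by_contra hb'
      have := hZ hb
      simp only [mem_sdiff, mem_union, mem_nh, not_or] at this
      exact this.2.2 ⟨this.1, hb', a, ha, hab⟩
    · refine x3 Z (fun v hv => ?_) hc
      have := hZ hv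
      push Not at h1
      have := h1 v hv
      simp only [mem_sdiff, mem_union] at *
      tauto

end Pool.Agent.Lib.MP_3b6a8c_pr
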