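import Pool.Agent.Lib.MP_3b6a8c_pr.Cheb
import Pool.Agent.Lib.MP_3b6a8c_pr.Sep

/-! An exploration weight bounding the probability of lying in an open cluster with few open
boundary edges. -/

set_option linter.unusedSectionVars false

namespace Pool.Agent.Lib.MP_3b6a8c_pr

open Finset SimpleGraph

variable {V : Type} [DecidableEq V]

/-- The graph with edge set `F`. -/
abbrev gr (F : Finset (Sym2 V)) : SimpleGraph V := fromEdgeSet (F : Set (Sym2 V))

theorem gr_adj {F : Finset (Sym2 V)} {u v : V} : (gr F).Adj u v ↔ s(u, v) ∈ F ∧ u ≠ v := by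
  simp [gr, fromEdgeSet_adj]

open Classical in
/-- The edges of `E` from `Q` to `S \ Q`. -/
noncomputable def bd (S : Finset V) (E : Finset (Sym2 V)) (Q : Finset V) : Finset (Sym2 V) :=
  E.filter fun e => ∃ u ∈ Q, ∃ y ∈ S, y ∉ Q ∧ e = s(u, y)

theorem mem_bd {S : Finset V} {E : Finset (Sym2 V)} {Q : Finset V} {e : Sym2 V} :
    e ∈ bd S E Q ↔ e ∈ E ∧ ∃ u ∈ Q, ∃ y ∈ S, y ∉ Q ∧ e = s(u, y) := by
  classical
  simp only [bd, mem_filter]

theorem bd_erase (S : Finset V) (E : Finset (Sym2 V)) (Q : Finset V) (e : Sym2 V) :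
    bd S (E.erase e) Q = (bd S E Q).erase e := by
  ext x
  simp only [mem_bd, mem_erase, and_assoc]

theorem explore {p a b c : ℝ} (h0 : 0 ≤ p) (h1 : p ≤ 1) (ha : 0 ≤ a) (hb : 1 ≤ b) (hc : 0 ≤ c)
    (h : p * (a + c) + (1 - p) * b ≤ 1) (S : Finset V) (E : Finset (Sym2 V)) : ∀ T : Finset V,
    ∃ w : Finset (Sym2 V) → ℝ, Ex p E w ≤ 1 ∧ (∀ F, 0 ≤ w F) ∧ ∀ F ⊆ E, ∀ Q, T ⊆ Q → Q ⊆ S →
      (∀ u ∈ Q, ∃ t ∈ T, Link (gr F) Q t u) →
      a ^ (Q \ T).card * b ^ (bd S E Q \ F).card * c ^ (bd S E Q ∩ F).card ≤ w F := by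
  induction E using Finset.strongInduction with
  | H E ih =>
  intro T
  have hb0 : 0 ≤ b := zero_le_one.trans hb
  rcases (bd S E T).eq_empty_or_nonempty with hT | ⟨e, he⟩
  · refine ⟨fun _ => 1, (Ex_const _ _ _).le, fun _ => zero_le_one, fun F hF Q hTQ hQS hQ => ?_⟩
    obtain rfl : Q = T := by
      refine Subset.antisymm (fun u hu => ?_) hTQ
      obtain ⟨t, ht, hl⟩ := hQ u hu
      refine hl.induct (· ∈ T) ht fun x _ y hy hxy hx => ?_
      by_contra hy'
      exact notMem_empty _ (hT ▸ mem_bd.2 ⟨hF (gr_adj.1 hxy).1, x, hx, y, hQS hy, hy', rfl⟩)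
    simp [hT]
  obtain ⟨heE, t, ht, y, hyS, hyT, rfl⟩ := mem_bd.1 he
  set e := s(t, y) with he'
  obtain ⟨w₁, a1, a2, a3⟩ := ih _ (erase_ssubset heE) (insert y T)
  obtain ⟨w₂, b1, b2, b3⟩ := ih _ (erase_ssubset heE) T
  refine ⟨fun F => if e ∈ F then a * w₁ (F.erase e) + c * w₂ (F.erase e) else b * w₂ F, ?_,
    fun F => ?_, fun F hF Q hTQ hQS hQ => ?_⟩
  · rw [← insert_erase heE, Ex_insert p (notMem_erase e E),
      Ex_congr (g := fun F => a * w₁ F + c * w₂ F),
      Ex_congr (f := fun F => if e ∈ F then _ else _) (g := fun F => b * w₂ F),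
      Ex_add, Ex_mul, Ex_mul, Ex_mul]
    · have h2 : 0 ≤ 1 - p := by linarith
      nlinarith [mul_le_mul_of_nonneg_left a1 (mul_nonneg h0 ha),
        mul_le_mul_of_nonneg_left b1 (mul_nonneg h0 hc),
        mul_le_mul_of_nonneg_left b1 (mul_nonneg h2 hb0)]
    · intro F hF
      rw [if_neg fun h' => notMem_erase e E (hF h')]
    · intro F hF
      rw [if_pos (mem_insert_self _ _), erase_insert fun h' => notMem_erase e E (hF h')]
  · have := a2 (F.erase e)
    have := b2 (F.erase e)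
    have := b2 F
    dsimp only
    split_ifs <;> positivity
  dsimp only
  split_ifs with heF
  · have hF₁ : F.erase e ⊆ E.erase e := erase_subset_erase e hF
    have e1 : (bd S E Q).erase e \ F.erase e = bd S E Q \ F := by
      ext x
      simp only [mem_sdiff, mem_erase]
      constructor
      · tauto
      · exact fun h' => ⟨⟨fun h'' => h'.2 (h'' ▸ heF), h'.1⟩, fun h'' => h'.2 h''.2⟩
    have e2 : (bd S E Q).erase e ∩ F.erase e = (bd S E Q ∩ F).erase e := by
      ext x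
      simp only [mem_inter, mem_erase]
      tauto
    have p1 := mul_nonneg ha (a2 (F.erase e))
    have p2 := mul_nonneg hc (b2 (F.erase e))
    by_cases hyQ : y ∈ Q
    · have k := a3 _ hF₁ Q (insert_subset hyQ hTQ) hQS fun u hu => by
        obtain ⟨t', ht', hl⟩ := hQ u hu
        refine hl.induct (fun z => ∃ t ∈ insert y T, Link (gr (F.erase e)) Q t z)
          ⟨t', mem_insert_of_mem ht', Link.refl hl.left⟩ fun x hx z hz hxz hl' => ?_
        by_cases hz' : z ∈ insert y T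
        · exact ⟨z, hz', Link.refl hz⟩
        · obtain ⟨t'', h3, h4⟩ := hl'
          refine ⟨t'', h3, h4.trans (Link.adj hx hz (gr_adj.2 ⟨mem_erase.2 ⟨fun h5 => hz' ?_,
            (gr_adj.1 hxz).1⟩, hxz.ne⟩))⟩
          rcases Sym2.eq_iff.1 h5 with ⟨-, rfl⟩ | ⟨-, rfl⟩
          · exact mem_insert_self _ _
          · exact mem_insert_of_mem ht
      have e3 : e ∉ bd S E Q ∩ F := fun h' => by
        obtain ⟨-, u, -, z, -, hz, h5⟩ := mem_bd.1 (mem_inter.1 h').1
        rcases Sym2.eq_iff.1 h5 with ⟨-, rfl⟩ | ⟨rfl, -⟩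
        · exact hz hyQ
        · exact hz (hTQ ht)
      have e4 : (Q \ T).card = (Q \ insert y T).card + 1 := by
        rw [sdiff_insert, card_erase_add_one (mem_sdiff.2 ⟨hyQ, hyT⟩)]
      rw [bd_erase, e1, e2, erase_eq_of_notMem e3] at k
      rw [e4, pow_succ]
      nlinarith [mul_le_mul_of_nonneg_left k ha]
    · have k := b3 _ hF₁ Q hTQ hQS fun u hu => by
        obtain ⟨t', ht', hl⟩ := hQ u hu
        refine ⟨t', ht', hl.of_adj fun x hx z hz hxz => gr_adj.2 ⟨mem_erase.2 ⟨fun h5 => hyQ ?_,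
            (gr_adj.1 hxz).1⟩, hxz.ne⟩⟩
        rcases Sym2.eq_iff.1 h5 with ⟨-, rfl⟩ | ⟨rfl, -⟩
        · exact hz
        · exact hx
      have e3 : e ∈ bd S E Q ∩ F :=
        mem_inter.2 ⟨mem_bd.2 ⟨heE, t, hTQ ht, y, hyS, hyQ, rfl⟩, heF⟩
      rw [bd_erase, e1, e2] at k
      rw [← card_erase_add_one e3, pow_succ]
      nlinarith [mul_le_mul_of_nonneg_left k hc]
  · have k := b3 F (subset_erase.2 ⟨hF, heF⟩) Q hTQ hQS hQ
    have e1 : (bd S E Q).erase e ∩ F = bd S E Q ∩ F := by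
      ext x
      simp only [mem_inter, mem_erase]
      exact ⟨fun h' => ⟨h'.1.2, h'.2⟩, fun h' => ⟨⟨fun h'' => heF (h'' ▸ h'.2), h'.1⟩, h'.2⟩⟩
    have e2 : (bd S E Q \ F).card ≤ ((bd S E Q).erase e \ F).card + 1 := by
      refine (card_le_card (t := insert e ((bd S E Q).erase e \ F)) fun x hx => ?_).trans
        (card_insert_le _ _)
      simp only [mem_insert, mem_sdiff, mem_erase] at hx ⊢
      tauto
    rw [bd_erase, e1] at k
    refine le_trans ?_ (mul_le_mul_of_nonneg_left k hb0)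
    have k2 := pow_le_pow_right₀ hb e2
    rw [pow_succ] at k2
    calc _ ≤ a ^ (Q \ T).card * (b ^ ((bd S E Q).erase e \ F).card * b) *
          c ^ (bd S E Q ∩ F).card := by gcongr
      _ = _ := by ring

theorem card_nh_le_bd [Fintype V] (G : SimpleGraph V) [DecidableRel G.Adj] (S Q : Finset V) :
    (nh G S Q).card ≤ (bd S G.edgeFinset Q).card := by
  refine card_le_card_of_forall_subsingleton (fun y e => y ∈ e) (fun y hy => ?_) fun e he => ?_
  · obtain ⟨h1, h2, u, hu, h3⟩ := mem_nh.1 hy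
    exact ⟨s(u, y), mem_bd.2 ⟨mem_edgeFinset.2 h3, u, hu, y, h1, h2, rfl⟩, Sym2.mem_mk_right _ _⟩
  · obtain ⟨-, u, hu, y, -, -, rfl⟩ := mem_bd.1 he
    have : ∀ z ∈ {z | z ∈ nh G S Q ∧ z ∈ s(u, y)}, z = y := fun z hz =>
      (Sym2.mem_iff.1 hz.2).resolve_left fun e => (mem_nh.1 hz.1).2.1 (e ▸ hu)
    intro z hz z' hz'
    rw [this z hz, this z' hz']

/-- The local bound. -/
theorem local_bound {p l : ℝ} (h1 : p ≤ 1) (hl : 1 < l) (hp : 1 < p * l) :
    ∃ a γ : ℝ, 0 < a ∧ a < 1 ∧ 0 < γ ∧ ∀ (V : Type) [DecidableEq V] (S : Finset V)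
      (E : Finset (Sym2 V)) (v : V), Pr p E (fun F => ∃ Q ⊆ S, v ∈ Q ∧ Conn (gr F) Q ∧
        (l - 1 - γ) * Q.card ≤ (bd S E Q).card ∧ ((bd S E Q ∩ F).card : ℝ) ≤ γ * Q.card) ≤ a := by
  have h0 : 0 < p := by nlinarith
  obtain ⟨β, hβ0, hβ1, hβ2⟩ : ∃ β : ℝ, 0 < β ∧ 1 < (l - 1) * β ∧ (1 - p) * β < p := by
    have h2 : 0 < p * l - 1 := by linarith
    have h3 : 0 < l - 1 := by linarith
    refine ⟨1 / (l - 1) + (p * l - 1) / (2 * (l - 1)), by positivity, ?_, ?_⟩
    · have : (l - 1) * (1 / (l - 1) + (p * l - 1) / (2 * (l - 1))) = 1 + (p * l - 1) / 2 := by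
        field_simp
      linarith
    · have : (1 - p) * (1 / (l - 1) + (p * l - 1) / (2 * (l - 1))) =
          (1 - p) * (1 + (p * l - 1) / 2) / (l - 1) := by field_simp
      rw [this, div_lt_iff₀ h3]
      nlinarith
  obtain ⟨s, hs0, hs1, hs2⟩ : ∃ s : ℝ, 0 < s ∧ s < 1 ∧
      0 < Real.log (1 - s) + (l - 1) * Real.log (1 + s * β) := by
    set r := (l - 1) * β with hr
    have h2 : 0 < r - 1 := by linarith
    have h3 : 0 < r + β := by linarith
    have h4 : (r - 1) / (2 * (r + β)) * (r + β) = (r - 1) / 2 := by field_simp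
    set s := (r - 1) / (2 * (r + β)) with hs
    have hs0 : 0 < s := by positivity
    have hs1 : s < 1 := by rw [hs, div_lt_one (by positivity)]; linarith
    refine ⟨s, hs0, hs1, ?_⟩
    have h5 := Real.one_sub_inv_le_log_of_pos (show 0 < 1 - s by linarith)
    have h6 := mul_le_mul_of_nonneg_left
      (Real.one_sub_inv_le_log_of_pos (show 0 < 1 + s * β by positivity)) (sub_pos.2 hl).le
    have h7 : 1 - (1 - s)⁻¹ + (l - 1) * (1 - (1 + s * β)⁻¹) =
        s * (r - 1 - s * (r + β)) / ((1 - s) * (1 + s * β)) := by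
      have : 1 - s ≠ 0 := by linarith
      rw [hr]
      field_simp
      ring
    have h8 : 0 < s * (r - 1 - s * (r + β)) / ((1 - s) * (1 + s * β)) := by
      have : 0 < 1 - s := by linarith
      have : 0 < r - 1 - s * (r + β) := by linarith
      positivity
    linarith
  set a := 1 - s with ha
  set b := 1 + s * β with hb
  set c := s * (p - (1 - p) * β) / p with hc
  have ha0 : 0 < a := by linarith
  have hb1 : 1 ≤ b := by nlinarith
  have hc0 : 0 < c := by
    have : 0 < p - (1 - p) * β := by linarith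
    positivity
  have hpc : p * c = s * (p - (1 - p) * β) := by rw [hc]; field_simp
  have hc1 : c ≤ 1 := by
    rw [hc, div_le_one h0]
    nlinarith [mul_nonneg (sub_nonneg.2 h1) hβ0.le]
  have lb : 0 ≤ Real.log b := Real.log_nonneg hb1
  have lc : Real.log c ≤ 0 := Real.log_nonpos hc0.le hc1
  set κ := Real.log a + (l - 1) * Real.log b with hκ
  set γ := κ / (2 * Real.log b - Real.log c + 1) with hγ
  have hγ0 : 0 < γ := div_pos hs2 (by linarith)
  have hγ1 : γ * (2 * Real.log b - Real.log c + 1) = κ := div_mul_cancel₀ _ (by linarith)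
  refine ⟨a, γ, ha0, by linarith, hγ0, fun V _ S E v => ?_⟩
  obtain ⟨w, w1, w2, w3⟩ := explore h0.le h1 ha0.le hb1 hc0.le (by nlinarith) S E {v}
  refine (Pr_le_of_weight h0.le h1 (w := fun F => a * w F) (fun F _ => mul_nonneg ha0.le (w2 F))
    fun F hF ⟨Q, hQS, hv, hQ, k1, k2⟩ => ?_).trans (by rw [Ex_mul]; nlinarith)
  refine le_trans ?_ (mul_le_mul_of_nonneg_left (w3 F hF Q (singleton_subset_iff.2 hv) hQS
    fun u hu => ⟨v, mem_singleton_self v, hQ.2 v hv u hu⟩) ha0.le)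
  have e1 : (Q \ {v}).card + 1 = Q.card := by rw [sdiff_singleton_eq_erase, card_erase_add_one hv]
  have e2 : ((bd S E Q \ F).card : ℝ) + (bd S E Q ∩ F).card = (bd S E Q).card := by
    exact_mod_cast card_sdiff_add_card_inter _ _
  rw [← mul_assoc, ← mul_assoc, ← pow_succ', e1, ← Real.log_nonneg_iff (by positivity),
    Real.log_mul (by positivity) (by positivity), Real.log_mul (by positivity) (by positivity),
    Real.log_pow, Real.log_pow, Real.log_pow]
  have k3 : (l - 1 - 2 * γ) * Q.card ≤ (bd S E Q \ F).card := by linarith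
  have k4 : (0 : ℝ) ≤ Q.card := Nat.cast_nonneg _
  nlinarith [mul_le_mul_of_nonneg_right k3 lb, mul_le_mul_of_nonpos_right k2 lc,
    mul_nonneg k4 hγ0.le, congrArg (· * (Q.card : ℝ)) hγ1]

end Pool.Agent.Lib.MP_3b6a8c_pr
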