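import Pool.Agent.Lib.MP_3b6a8c_pr.Ball

/-! Clique minors in percolated vertex expanders. -/

set_option linter.unusedSectionVars false

namespace Pool.Agent.Lib.MP_3b6a8c_pr

open Finset SimpleGraph

theorem exists_density {x δ : ℝ} (hx : 0 < x) (hδ : 0 < δ) (h : ℕ) :
    ∃ Λ : ℕ, 2 ^ (h + 1) ≤ Λ * x ∧ 8 ≤ δ * x ^ 2 * Λ := by
  obtain ⟨Λ, hΛ⟩ := exists_nat_ge (2 ^ (h + 1) / x + 8 / (δ * x ^ 2))
  have h1 : (0 : ℝ) ≤ 2 ^ (h + 1) / x := by positivity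
  have h2 : (0 : ℝ) ≤ 8 / (δ * x ^ 2) := by positivity
  refine ⟨Λ, (div_le_iff₀ hx).1 (by linarith), ?_⟩
  rw [mul_comm]
  exact (div_le_iff₀ (by positivity)).1 (by linarith)

theorem core {p l δ a γ ε : ℝ} (h0 : 0 < p) (h1 : p ≤ 1) (hδ : 0 < δ) (ha0 : 0 < a) (ha : a < 1)
    (hγ : 0 < γ) (hε : 0 < ε) (hε1 : 12 * ε ≤ 1 - a) (hε2 : 12 * ε ≤ (1 - a) * γ)
    (hloc : ∀ (V : Type) [DecidableEq V] (S : Finset V)
      (E : Finset (Sym2 V)) (v : V), Pr p E (fun F => ∃ Q ⊆ S, v ∈ Q ∧ Conn (gr F) Q ∧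
        (l - 1 - γ) * Q.card ≤ (bd S E Q).card ∧ ((bd S E Q ∩ F).card : ℝ) ≤ γ * Q.card) ≤ a)
    (h Λ₀ D : ℕ) : ∃ D' R n₀ : ℕ, D ≤ D' ∧ ∀ (V : Type) [Fintype V] [DecidableEq V]
      (G : SimpleGraph V) [DecidableRel G.Adj] (U : Finset V), n₀ ≤ U.card →
      (∀ S ⊆ U, S.card ≤ R → (l - 1) * S.card ≤ (nh G U S).card) →
      ∑ v ∈ U, (U.filter (G.Adj v)).card ≤ Λ₀ * U.card →
      ∑ v ∈ U.filter fun v => D < (U.filter (G.Adj v)).card ∧ (U.filter (G.Adj v)).card ≤ D',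
        ((U.filter (G.Adj v)).card : ℝ) ≤ ε * U.card →
      Pr p G.edgeFinset (fun F => ¬ HasK (gr F) h) ≤ δ := by
  classical
  set η := ε / (D + 1) with hη
  have hη0 : 0 < η := by positivity
  have hη1 : η * D + η = ε := by rw [hη]; field_simp
  have hη2 : 0 ≤ η * D := by positivity
  obtain ⟨K, hK⟩ := hyperfinite h hη0 (by linarith)
  obtain ⟨Λ, hΛ1, hΛ2⟩ := exists_density (pow_pos h0 (K * D)) hδ h
  obtain ⟨M, hM⟩ := exists_nat_ge (Λ / γ)
  set B := K * (D + 1) ^ K with hB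
  set Δ := (D + 1) ^ (K + 1 + K) with hΔ
  set τ := (1 - a) / 2 with hτ
  have hτ0 : 0 < τ := by linarith
  obtain ⟨D', hD'⟩ := exists_nat_ge (D + 1 + 6 * Λ₀ * (1 + (Λ + M) * B) / τ)
  obtain ⟨n₀, hn₀⟩ := exists_nat_ge (1 + 6 * (M * B) / τ + Δ / (τ ^ 2 * δ))
  have p1 : 0 ≤ 6 * Λ₀ * (1 + (Λ + M) * B) / τ := by positivity
  have p2 : 0 ≤ 6 * (M * B) / τ := by positivity
  have p3 : 0 ≤ Δ / (τ ^ 2 * δ) := by positivity
  have p4 : (0 : ℝ) ≤ D := Nat.cast_nonneg D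
  have hDD : D ≤ D' := by exact_mod_cast (by linarith : (D : ℝ) ≤ D')
  refine ⟨D', (M + 1) * K, n₀, hDD, fun V _ _ G _ U hn hexp hsum hmid => ?_⟩
  set dg : V → ℕ := fun v => (U.filter (G.Adj v)).card with hdg
  set L := U.filter fun v => dg v ≤ D with hL
  set W := U.filter fun v => D' < dg v with hW
  set n : ℝ := (U.card : ℝ) with hn'
  have hn1 : (n₀ : ℝ) ≤ n := Nat.cast_le.2 hn
  have hn0 : 0 < n := by linarith
  have hLU : L ⊆ U := filter_subset _ _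
  have hLW : ∀ v ∈ L, v ∉ W := fun v hv hv' => by
    have := (mem_filter.1 hv).2
    have := (mem_filter.1 hv').2
    omega
  have hLD : ∀ u ∈ L, (U.filter (G.Adj u)).card ≤ D := fun u hu => (mem_filter.1 hu).2
  have hMid : (U.filter fun v => D < dg v ∧ dg v ≤ D') = (U \ W) \ L := by
    ext v
    simp only [hL, hW, mem_filter, mem_sdiff, not_and, not_le, not_lt]
    tauto
  rw [hMid] at hmid
  have c1 : (((U \ W) \ L).card : ℝ) ≤ ε * n := by
    refine le_trans ?_ hmid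
    rw [card_eq_sum_ones, Nat.cast_sum]
    refine sum_le_sum fun v hv => ?_
    rw [← hMid] at hv
    exact_mod_cast (Nat.zero_le D).trans_lt (mem_filter.1 hv).2.1
  have c2 : (W.card : ℝ) * (1 + (Λ + M) * B) ≤ τ / 6 * n := by
    have a1 : W.card * D' ≤ Λ₀ * U.card :=
      (card_nsmul_le_sum W dg D' fun v hv => (mem_filter.1 hv).2.le).trans
        ((sum_le_sum_of_subset (filter_subset _ _)).trans hsum)
    have a2 : (W.card : ℝ) * D' ≤ Λ₀ * n := by rw [hn']; exact_mod_cast a1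
    have a3 : 6 * Λ₀ * (1 + (Λ + M) * B) ≤ D' * τ := (div_le_iff₀ hτ0).1 (by linarith)
    refine le_of_mul_le_mul_right ?_ (show (0 : ℝ) < D' by linarith)
    have a4 : (0 : ℝ) ≤ 1 + (Λ + M) * B := by positivity
    nlinarith [mul_le_mul_of_nonneg_right a2 a4, mul_le_mul_of_nonneg_right a3 hn0.le]
  have c3 : (M * B : ℝ) ≤ τ / 6 * n := by
    have : 6 * (M * B) ≤ n * τ := (div_le_iff₀ hτ0).1 (by linarith)
    linarith
  by_contra hPr
  let bad : Finset V → Prop := fun Q => Q ⊆ L ∧ Conn G Q ∧ Q.card ≤ K ∧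
    ((nh G (U \ W) Q).card : ℝ) < (l - 1 - γ) * Q.card
  obtain ⟨𝒬, hQ, hmax⟩ := exists_max_image (univ.filter fun 𝒬 : Finset (Finset V) =>
    (∀ Q ∈ 𝒬, bad Q) ∧ ∀ Q ∈ 𝒬, ∀ Q' ∈ 𝒬, Q ≠ Q' → Disjoint Q Q') card ⟨∅, by simp⟩
  obtain ⟨hQ1, hQ2⟩ := (mem_filter.1 hQ).2
  have c4 := few_bad h0 h1 hΛ1 hΛ2 (filter_subset _ _ : W ⊆ U) (fun Q h =>
    ⟨(hQ1 Q h).1.trans hLU, disjoint_left.2 fun v hv => hLW v ((hQ1 Q h).1 hv), (hQ1 Q h).2.1,
      (hQ1 Q h).2.2.1, fun u hu => hLD u ((hQ1 Q h).1 hu)⟩) hQ2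
    (fun Y hY => few_same_hub hγ hexp le_rfl (by
      have := (div_le_iff₀ hγ).1 hM
      linarith) (fun Q h => ⟨(hQ1 Q h).1.trans hLU, (hQ1 Q h).2.1.1, (hQ1 Q h).2.2⟩) hQ2 hY)
    (not_le.1 hPr)
  set N := (𝒬.biUnion id).biUnion (bl G L K) with hN
  have c5 : (N.card : ℝ) ≤ W.card * ((Λ + M) * B) + M * B := by
    have : N.card ≤ W.card * ((Λ + M) * B) + M * B := by
      refine (card_biUnion_le_card_mul _ _ _ fun u _ => card_bl hLU hLD K u).trans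
        ((Nat.mul_le_mul_right _ ((card_biUnion_le_card_mul _ _ K fun Q h =>
          (hQ1 Q h).2.2.1).trans (Nat.mul_le_mul_right K c4))).trans_eq ?_)
      rw [hB]; ring
    exact_mod_cast this
  have hsafe : ∀ Q, bad Q → ∀ v ∈ Q, v ∈ N := fun Q hb v hv => by
    by_contra hno
    have a1 : ∀ Q' ∈ 𝒬, Disjoint Q Q' := fun Q' h => disjoint_left.2 fun u hu hu' =>
      hno (mem_biUnion.2 ⟨u, mem_biUnion.2 ⟨Q', h, hu'⟩,
        mem_bl.2 (hb.2.1.near hb.1 hb.2.2.1 hv hu)⟩)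
    have := hmax (insert Q 𝒬) (mem_filter.2 ⟨mem_univ _, by simpa [hb] using hQ1,
      fun C hC C' hC' hne => by
        rcases mem_insert.1 hC with rfl | b1 <;> rcases mem_insert.1 hC' with rfl | b2
        · exact (hne rfl).elim
        · exact a1 _ b2
        · exact (a1 _ b1).symm
        · exact hQ2 _ b1 _ b2 hne⟩)
    rw [card_insert_of_notMem fun h => disjoint_left.1 (a1 Q h) hv hv] at this
    omega
  let P : V → Finset (Sym2 V) → Prop := fun v F => ∃ Q ⊆ bl G L K v, v ∈ Q ∧ Conn (gr F) Q ∧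
    (l - 1 - γ) * Q.card ≤ (bd (U \ W) G.edgeFinset Q).card ∧
      ((bd (U \ W) G.edgeFinset Q ∩ F).card : ℝ) ≤ γ * Q.card
  let A : V → Finset (Sym2 V) := fun v => G.edgeFinset.filter fun e => ∃ u ∈ bl G L K v, u ∈ e
  have c6 : ((L \ N).card : ℝ) ≤ n := Nat.cast_le.2 (card_le_card (sdiff_subset.trans hLU))
  have c7 : ∑ v ∈ L \ N, Pr p G.edgeFinset (P v) ≤ a * n := by
    refine (sum_le_card_nsmul _ _ a fun v _ => (Pr_mono h0.le h1 fun F _ ⟨Q, hQ, h⟩ =>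
      ⟨Q, fun u hu => mem_sdiff.2 ⟨hLU (bl_subset _ _ _ (hQ hu)), hLW u (bl_subset _ _ _ (hQ hu))⟩,
        h⟩).trans (hloc V (U \ W) G.edgeFinset v)).trans ?_
    rw [nsmul_eq_mul, mul_comm]
    exact mul_le_mul_of_nonneg_left c6 ha0.le
  refine hPr (le_trans (Pr_mono h0.le h1 fun F hF hK' => ?_) ((cheb h0.le h1 (L \ N) P A
    (Δ := Δ) (fun v _ F hF F' _ e ⟨Q, a1, a2, a3, a4, a5⟩ => ⟨Q, a1, a2, ⟨a3.1, fun u hu x hx =>
      (a3.2 u hu x hx).of_adj fun y hy z _ hyz => gr_adj.2 ⟨?_, hyz.ne⟩⟩, a4, ?_⟩)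
    (fun v _ => ?_) (t := τ * n) (by positivity)).trans ?_))
  · obtain ⟨X, hX, a1, a2⟩ := hK V (gr F) hK' L
    obtain ⟨R, a3, a4⟩ := most_good (G := G) (S := U \ W) hLU a2 γ
    have a5 : (X.card : ℝ) ≤ η * n := a1.trans (mul_le_mul_of_nonneg_left
      (Nat.cast_le.2 (card_le_card hLU)) hη0.le)
    have a6 : γ * R.card ≤ 2 * ε * n := by
      rw [sum_union (disjoint_left.2 fun v hv hv' => (mem_sdiff.1 hv').2 (hX hv))] at a3
      have := sum_le_card_nsmul X (fun z => ((U.filter (G.Adj z)).card : ℝ)) D fun v hv => by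
        exact_mod_cast hLD v (hX hv)
      rw [nsmul_eq_mul] at this
      nlinarith [mul_le_mul_of_nonneg_right a5 p4]
    have a7 : (R.card : ℝ) ≤ τ / 3 * n := le_of_mul_le_mul_left (by nlinarith) hγ
    refine le_trans ?_ (le_abs_self _)
    generalize hY : @filter V (fun v => P v F) (fun _ => Classical.propDecidable _) (L \ N) = Y
    have a8 : U ⊆ Y ∪ (N ∪ (X ∪ (R ∪ (W ∪ (U \ W) \ L)))) :=
      fun v hv => by
        by_contra hno
        simp only [mem_union, mem_sdiff, not_or, not_and, not_not, and_imp] at hno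
        obtain ⟨b1, b2, b3, b4, b5, b6⟩ := hno
        have b7 := b6 hv b5
        obtain ⟨Q, d1, d2, d3, d4, d5⟩ := a4 v b7 b3 b4
        have d6 : Conn G Q := ⟨d3.1, fun u hu x hx => (d3.2 u hu x hx).of_adj fun _ _ _ _ h =>
          mem_edgeFinset.1 (hF (gr_adj.1 h).1)⟩
        refine b1 (hY ▸ (@mem_filter _ _ (fun _ => Classical.propDecidable _) _ _).2
          ⟨mem_sdiff.2 ⟨b7, b2⟩, Q, fun u hu => mem_bl.2 (d6.near d1 d4 hu d2), d2, d3, ?_, d5⟩)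
        refine (not_lt.1 fun h => b2 (hsafe Q ⟨d1, d6, d4, h⟩ v d2)).trans ?_
        exact_mod_cast card_nh_le_bd G _ Q
    have a9 : n ≤ (Y.card : ℝ) + (N.card + (X.card + (R.card +
        (W.card + ((U \ W) \ L).card)))) := by
      rw [hn']
      exact_mod_cast (card_le_card a8).trans ((card_union_le _ _).trans (Nat.add_le_add_left
        ((card_union_le _ _).trans (Nat.add_le_add_left ((card_union_le _ _).trans
        (Nat.add_le_add_left ((card_union_le _ _).trans (Nat.add_le_add_left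
        (card_union_le _ _) _)) _)) _)) _))
    have b1 : ε * n ≤ τ / 6 * n := mul_le_mul_of_nonneg_right (by linarith) hn0.le
    have b2 : η * n ≤ ε * n := mul_le_mul_of_nonneg_right (by linarith) hn0.le
    have b3 : τ * n = (n - a * n) / 2 := by rw [hτ]; ring
    linarith
  · have : s(y, z) ∈ F ∩ A v := mem_inter.2 ⟨(gr_adj.1 hyz).1,
      mem_filter.2 ⟨hF (gr_adj.1 hyz).1, y, a1 hy, Sym2.mem_mk_left _ _⟩⟩
    exact (mem_inter.1 (e ▸ this)).1
  · have : bd (U \ W) G.edgeFinset Q ⊆ A v := fun x hx => by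
      obtain ⟨b1, u, hu, y, -, -, rfl⟩ := mem_bd.1 hx
      exact mem_filter.2 ⟨b1, u, a1 hu, Sym2.mem_mk_left _ _⟩
    rwa [← inter_eq_left.2 this, inter_assoc, inter_comm (A v), ← e, inter_comm F, ← inter_assoc,
      inter_eq_left.2 this]
  · refine (card_le_card fun u hu => ?_).trans (card_bl hLU hLD (K + 1 + K) v)
    obtain ⟨e, b1, b2⟩ := not_disjoint_iff.1 (mem_filter.1 hu).2
    obtain ⟨b3, x, hx, b4⟩ := mem_filter.1 b1
    obtain ⟨-, y, hy, b5⟩ := mem_filter.1 b2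
    refine mem_bl.2 (((mem_bl.1 hy).symm.trans ?_).trans (mem_bl.1 hx))
    by_cases hxy : y = x
    · subst hxy
      exact ⟨.nil, Nat.zero_le _, by simpa using bl_subset _ _ _ hx⟩
    · rw [(Sym2.mem_and_mem_iff hxy).1 ⟨b5, b4⟩] at b3
      exact ⟨.cons (mem_edgeFinset.1 b3) .nil, le_rfl,
        by simp [bl_subset _ _ _ hx, bl_subset _ _ _ hy]⟩
  · rw [div_le_iff₀ (by positivity)]
    have b1 : (Δ : ℝ) ≤ n * (τ ^ 2 * δ) := (div_le_iff₀ (by positivity)).1 (by linarith)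
    nlinarith [mul_le_mul c6 b1 (Nat.cast_nonneg _) hn0.le]

theorem gap {V : Type} (U : Finset V) (g : V → ℕ) (f : ℕ → ℕ) (hf : ∀ D, D ≤ f D) {x : ℝ}
    (m : ℕ) (hm : ∑ v ∈ U, (g v : ℝ) < m * x) :
    ∃ i < m, ∑ v ∈ U.filter fun v => f^[i] 0 < g v ∧ g v ≤ f (f^[i] 0), (g v : ℝ) ≤ x := by
  by_contra hno
  push Not at hno
  have key : ∀ i ≤ m, i * x ≤ ∑ v ∈ U.filter fun v => g v ≤ f^[i] 0, (g v : ℝ) := fun i hi => by
    induction i with
    | zero => simpa using sum_nonneg fun _ _ => Nat.cast_nonneg _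
    | succ i ih =>
      rw [Function.iterate_succ_apply', ← sum_filter_add_sum_filter_not _ fun v => g v ≤ f^[i] 0,
        filter_filter, filter_filter, filter_congr (q := fun v => g v ≤ f^[i] 0) fun v _ =>
          ⟨fun h => h.2, fun h => ⟨h.trans (hf _), h⟩⟩,
        filter_congr (p := fun v => g v ≤ f (f^[i] 0) ∧ ¬ g v ≤ f^[i] 0)
          (q := fun v => f^[i] 0 < g v ∧ g v ≤ f (f^[i] 0)) fun v _ => by omega]
      push_cast
      linarith [ih (by omega), hno i (by omega)]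
  exact hm.not_ge ((key m le_rfl).trans
    (sum_le_sum_of_subset_of_nonneg (filter_subset _ _) fun _ _ _ => Nat.cast_nonneg _))

theorem dense {V : Type} [Fintype V] [DecidableEq V] {G : SimpleGraph V} [DecidableRel G.Adj]
    {p δ : ℝ} (h0 : 0 < p) (h1 : p ≤ 1) {h Λ : ℕ} (hΛ1 : 2 ^ (h + 1) ≤ Λ * p ^ 1)
    (hΛ2 : 8 ≤ δ * (p ^ 1) ^ 2 * Λ) {U : Finset V} (hU : U.Nonempty)
    (hs : Λ * U.card ≤ ∑ v ∈ U, (U.filter (G.Adj v)).card) :
    Pr p G.edgeFinset (fun F => ¬ HasK (gr F) h) ≤ δ := by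
  refine virtual h0 h1 hΛ1 hΛ2 hU (I := (U ×ˢ U).filter fun i => G.Adj i.1 i.2) (hs.trans_eq ?_)
    Prod.fst Prod.snd (fun _ => ∅) (fun i => {s(i.1, i.2)}) (fun i hi => ?_)
    (fun _ _ _ _ => Prod.ext) (by simp) (by simp) (fun i hi => ?_) (fun i _ => ?_) fun i hi => ?_
  · simp only [card_filter, sum_product]
  · obtain ⟨a1, a2⟩ := mem_filter.1 hi
    exact ⟨(mem_product.1 a1).1, (mem_product.1 a1).2, a2.ne⟩
  · simpa using (mem_filter.1 hi).2
  · refine (card_le_card (t := {i, i.swap}) fun j hj => ?_).trans card_le_two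
    have := (mem_filter.1 hj).2
    rw [disjoint_singleton, not_not, Sym2.eq_iff] at this
    rcases this with ⟨a1, a2⟩ | ⟨a1, a2⟩
    · exact mem_insert.2 (Or.inl (Prod.ext a1.symm a2.symm))
    · exact mem_insert.2 (Or.inr (mem_singleton.2 (Prod.ext a2.symm a1.symm)))
  · exact ⟨conn_singleton _, _, mem_insert_self _ _, _, mem_singleton_self _,
      gr_adj.2 ⟨mem_singleton_self _, (mem_filter.1 hi).2.ne⟩⟩

theorem clique_minor {d : ℕ} {p δ : ℝ} (hp : 1 < p * (d + 1)) (h1 : p ≤ 1) (hδ : 0 < δ) (h : ℕ) :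
    ∃ k₀ : ℕ, ∀ k ≥ k₀, ∀ (V : Type) [Fintype V] [DecidableEq V] (G : SimpleGraph V)
      [DecidableRel G.Adj], IsVertexExpander G k d →
      Pr p G.edgeFinset (fun F => ¬ HasK (gr F) h) ≤ δ := by
  have hd : (0 : ℝ) ≤ d := Nat.cast_nonneg d
  have h0 : 0 < p := by nlinarith
  set l := (d + 1 + 1 / p) / 2 with hl
  have e1 : p * (1 / p) = 1 := by field_simp
  have e2 : 1 / p < d + 1 := by rw [div_lt_iff₀ h0]; linarith
  have e3 : 1 ≤ 1 / p := by rw [le_div_iff₀ h0]; linarith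
  have hl1 : 1 < l := by linarith
  have hl2 : 0 < d + 1 - l := by linarith
  obtain ⟨a, γ, ha0, ha, hγ, hloc⟩ := local_bound h1 hl1 (by rw [hl]; nlinarith)
  obtain ⟨Λ, hΛ1, hΛ2⟩ := exists_density (pow_pos h0 1) hδ h
  set ε := min ((1 - a) / 12) ((1 - a) * γ / 12) with hε
  have hε0 : 0 < ε := lt_min (by linarith) (by have := sub_pos.2 ha; positivity)
  have hε1 : ε ≤ (1 - a) / 12 := min_le_left _ _
  have hε2 : ε ≤ (1 - a) * γ / 12 := min_le_right _ _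
  choose f R n₀ hf hcore using core h0 h1 hδ ha0 ha hγ hε0 (by linarith) (by linarith) hloc h Λ
  obtain ⟨m, hm⟩ := exists_nat_ge (Λ / ε)
  set T := ∑ i ∈ range m, (R (f^[i] 0) + n₀ (f^[i] 0)) with hT
  obtain ⟨k₀, hk₀⟩ := exists_nat_ge (l * (T + 1) / (d + 1 - l))
  refine ⟨k₀, fun k hk V _ _ G _ hG => ?_⟩
  obtain ⟨U, hU1, hU2⟩ := clean hG (l := l) (by linarith)
  have hT0 : (0 : ℝ) ≤ T := Nat.cast_nonneg T
  have hk1 : l * (T + 1) ≤ (d + 1 - l) * k := by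
    have : (k₀ : ℝ) ≤ k := by exact_mod_cast hk
    nlinarith [(div_le_iff₀ hl2).1 hk₀]
  have hU3 : T + 1 ≤ U.card := by exact_mod_cast (by nlinarith : (T : ℝ) + 1 ≤ U.card)
  rcases le_or_gt (Λ * U.card) (∑ v ∈ U, (U.filter (G.Adj v)).card) with hs | hs
  · exact dense h0 h1 hΛ1 hΛ2 (card_pos.1 (by omega)) hs
  obtain ⟨i, hi, hgap⟩ := gap U (fun v => (U.filter (G.Adj v)).card) f hf (x := ε * U.card) m (by
    have a1 : ∑ v ∈ U, ((U.filter (G.Adj v)).card : ℝ) < Λ * U.card := by exact_mod_cast hs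
    nlinarith [mul_le_mul_of_nonneg_right ((div_le_iff₀ hε0).1 hm) (Nat.cast_nonneg U.card)])
  have a1 : R (f^[i] 0) + n₀ (f^[i] 0) ≤ T :=
    single_le_sum (f := fun i => R (f^[i] 0) + n₀ (f^[i] 0)) (fun _ _ => Nat.zero_le _)
      (mem_range.2 hi)
  refine hcore _ V G U (by omega) (fun S hS hc => hU2 S hS ?_) hs.le hgap
  have : (S.card : ℝ) ≤ T := by exact_mod_cast (by omega : S.card ≤ T)
  nlinarith

theorem main (d : ℕ) (p : ℝ) (hp : 1 < p * (d + 1)) (h1 : p ≤ 1) (W : Type) [Fintype W]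
    (H : SimpleGraph W) (hH : ∀ a, (H.neighborSet a).ncard ≤ 3) (δ : ℝ) (hδ : 0 < δ) :
    ∃ k₀ : ℕ, ∀ k ≥ k₀, ∀ (V : Type) [Fintype V] (G : SimpleGraph V), IsVertexExpander G k d →
      1 - δ ≤ percProb G p (ContainsSubdivision H) := by
  classical
  obtain ⟨k₀, hk⟩ := clique_minor hp h1 hδ (Fintype.card W)
  refine ⟨k₀, fun k hk' V _ G hG => ?_⟩
  have h0 : 0 ≤ p := by nlinarith [(Nat.cast_nonneg d : (0 : ℝ) ≤ d)]
  have h2 := hk k hk' V G hG
  rw [Pr_not] at h2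
  have h3 := Pr_mono h0 h1 (E := G.edgeFinset) fun F _ => subdivision_of_hasK (Γ := gr F) H hH
  have h4 : percProb G p (ContainsSubdivision H) =
      Pr p G.edgeFinset fun F => ContainsSubdivision H (gr F) := by
    simp only [percProb, Pr, Ex, mul_ite, mul_one, mul_zero]
  linarith

end Pool.Agent.Lib.MP_3b6a8c_pr
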