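import Pool.Agent.Lib.MP_3b6a8c_pr.Explore

/-! Dense families of virtual edges give clique minors; poorly expanding sets are few. -/

set_option linter.unusedSectionVars false

namespace Pool.Agent.Lib.MP_3b6a8c_pr

open Finset SimpleGraph

variable {V : Type} [DecidableEq V]

theorem Conn.gr_mono {J F : Finset (Sym2 V)} (h : J ⊆ F) {Q : Finset V} (hQ : Conn (gr J) Q) :
    Conn (gr F) Q := ⟨hQ.1, fun u hu v hv => (hQ.2 u hu v hv).of_adj fun _ _ _ _ h' =>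
      gr_adj.2 ⟨h (gr_adj.1 h').1, h'.ne⟩⟩

theorem virtual {ι : Type} [DecidableEq ι] {p δ : ℝ} (h0 : 0 < p) (h1 : p ≤ 1) {h r Λ : ℕ}
    (hΛ1 : 2 ^ (h + 1) ≤ Λ * p ^ r) (hΛ2 : 8 ≤ δ * (p ^ r) ^ 2 * Λ) {E : Finset (Sym2 V)}
    {W : Finset V} (hW : W.Nonempty) {I : Finset ι} (hI : Λ * W.card ≤ I.card)
    (x y : ι → V) (Q : ι → Finset V) (J : ι → Finset (Sym2 V))
    (hxy : ∀ i ∈ I, x i ∈ W ∧ y i ∈ W ∧ x i ≠ y i)
    (hinj : ∀ i ∈ I, ∀ j ∈ I, x i = x j → y i = y j → i = j)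
    (hQ : ∀ i ∈ I, Disjoint (Q i) W) (hQd : ∀ i ∈ I, ∀ j ∈ I, i ≠ j → Disjoint (Q i) (Q j))
    (hJ : ∀ i ∈ I, J i ⊆ E ∧ (J i).card ≤ r)
    (hJd : ∀ i ∈ I, (I.filter fun j => ¬ Disjoint (J i) (J j)).card ≤ 2)
    (hc : ∀ i ∈ I, Conn (gr (J i)) (insert (x i) (Q i)) ∧
      Touch (gr (J i)) (insert (x i) (Q i)) {y i}) :
    Pr p E (fun F => ¬ HasK (gr F) h) ≤ δ := by
  classical
  have hp : 0 < p ^ r := by positivity
  have hΛ0 : (0 : ℝ) < Λ := by
    have : (0 : ℝ) < 2 ^ (h + 1) := by positivity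
    exact (mul_pos_iff_of_pos_right hp).1 (this.trans_le hΛ1)
  have hI' : (Λ : ℝ) * W.card ≤ I.card := by exact_mod_cast hI
  have hW' : (1 : ℝ) ≤ W.card := by exact_mod_cast hW.card_pos
  have hI0 : (Λ : ℝ) ≤ I.card := by nlinarith
  have hI1 : (0 : ℝ) < I.card := hΛ0.trans_le hI0
  have hm : p ^ r * I.card ≤ ∑ i ∈ I, Pr p E fun F => J i ⊆ F := by
    rw [mul_comm, ← nsmul_eq_mul]
    refine card_nsmul_le_sum _ _ _ fun i hi => ?_
    refine (pow_le_pow_of_le_one h0.le h1 (hJ i hi).2).trans_eq ?_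
    rw [← Ex_subset p (hJ i hi).1]
    exact Ex_congr fun F _ => by congr
  refine le_trans (Pr_mono h0.le h1 fun F _ hK => ?_) ((cheb h0.le h1 I (fun i F => J i ⊆ F) J
    (fun i _ F _ F' _ h h' => ?_) (fun i hi => by convert hJd i hi)
    (t := p ^ r * I.card / 2) (by positivity)).trans ?_)
  · set O := I.filter fun i => J i ⊆ F with hO
    have hOI : ∀ {z i}, i ∈ O.filter (x · = z) → i ∈ I ∧ J i ⊆ F ∧ x i = z := fun hi => by
      simpa only [hO, mem_filter, and_assoc] using hi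
    have hsub : ∀ {z i}, i ∈ O.filter (x · = z) →
        insert (x i) (Q i) ⊆ insert z ((O.filter (x · = z)).biUnion Q) := fun hi => by
      rw [(hOI hi).2.2]
      exact insert_subset_insert _ (subset_biUnion_of_mem Q hi)
    have key := mader hK hW (fun z => insert z ((O.filter (x · = z)).biUnion Q))
      (fun z _ => conn_of (mem_insert_self _ _) fun v hv => by
        rcases mem_insert.1 hv with rfl | hv
        · exact Link.refl hv
        · obtain ⟨i, hi, hv⟩ := mem_biUnion.1 hv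
          obtain ⟨a1, a2, a3⟩ := hOI hi
          exact (((hc i a1).1.gr_mono a2).2 z (a3 ▸ mem_insert_self _ _) v
            (mem_insert_of_mem hv)).mono (hsub hi))
      (fun z hz z' hz' hne => disjoint_left.2 fun v hv hv' => by
        simp only [mem_insert, mem_biUnion] at hv hv'
        rcases hv with rfl | ⟨i, hi, hv⟩ <;> rcases hv' with rfl | ⟨j, hj, hv'⟩
        · exact hne rfl
        · exact disjoint_left.1 (hQ j (hOI hj).1) hv' hz
        · exact disjoint_left.1 (hQ i (hOI hi).1) hv hz'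
        · exact disjoint_left.1 (hQd i (hOI hi).1 j (hOI hj).1 fun e =>
            hne ((hOI hi).2.2.symm.trans (e ▸ (hOI hj).2.2))) hv hv')
      (fun z => (O.filter (x · = z)).image y) fun z _ z' hz' => by
        obtain ⟨i, hi, rfl⟩ := mem_image.1 hz'
        obtain ⟨a1, a2, a3⟩ := hOI hi
        obtain ⟨u, hu, v, hv, huv⟩ := (hc i a1).2
        exact ⟨(hxy i a1).2.1, a3 ▸ (hxy i a1).2.2.symm, u, hsub hi hu, v,
          mem_singleton.1 hv ▸ mem_insert_self _ _, gr_adj.2 ⟨a2 (gr_adj.1 huv).1, huv.ne⟩⟩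
    rw [sum_congr rfl fun z _ => card_image_of_injOn fun i hi j hj e =>
      hinj i (hOI hi).1 j (hOI hj).1 ((hOI hi).2.2.trans (hOI hj).2.2.symm) e,
      ← card_eq_sum_card_fiberwise fun i hi => (hxy i (mem_filter.1 hi).1).1] at key
    have key' : (O.card : ℝ) < 2 ^ h * W.card := by exact_mod_cast key
    rw [abs_sub_comm]
    refine le_trans ?_ (le_abs_self _)
    rw [pow_succ] at hΛ1
    have := mul_le_mul_of_nonneg_right hΛ1 (zero_le_one.trans hW')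
    have := mul_le_mul_of_nonneg_left hI' hp.le
    refine (show p ^ r * I.card / 2 ≤ ∑ i ∈ I, Pr p E (fun F => J i ⊆ F) - O.card by
      nlinarith).trans_eq ?_
    rw [hO]
    congr
  · exact inter_eq_right.1 (h ▸ inter_eq_right.2 h')
  · rw [div_le_iff₀ (by positivity)]
    have hδ : 0 < δ * (p ^ r) ^ 2 := (mul_pos_iff_of_pos_right hΛ0).1 (by linarith)
    push_cast
    nlinarith [mul_le_mul_of_nonneg_left hI0 hδ.le]

theorem few_same_hub {G : SimpleGraph V} {U W : Finset V} {l γ : ℝ} {K R M Λ : ℕ}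
    (hγ : 0 < γ) (hexp : ∀ S ⊆ U, S.card ≤ R → (l - 1) * S.card ≤ (nh G U S).card)
    (hR : (M + 1) * K ≤ R) (hM : Λ < γ * (M + 1)) {𝒬 : Finset (Finset V)}
    (hQ : ∀ Q ∈ 𝒬, Q ⊆ U ∧ Q.Nonempty ∧ Q.card ≤ K ∧
      ((nh G (U \ W) Q).card : ℝ) < (l - 1 - γ) * Q.card)
    (hd : ∀ Q ∈ 𝒬, ∀ Q' ∈ 𝒬, Q ≠ Q' → Disjoint Q Q') {Y : Finset V} (hY : Y.card ≤ Λ) :
    (𝒬.filter fun Q => nh G W Q ⊆ Y).card ≤ M := by
  by_contra hlt
  obtain ⟨𝒮, hS, hc⟩ := exists_subset_card_eq (Nat.succ_le_of_lt (not_le.1 hlt))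
  have h1 : ∀ Q ∈ 𝒮, Q ∈ 𝒬 := fun Q h => (mem_filter.1 (hS h)).1
  have h2 : (𝒮.biUnion id).card = ∑ Q ∈ 𝒮, Q.card :=
    card_biUnion fun Q h Q' h' hne => hd Q (h1 Q h) Q' (h1 Q' h') hne
  have h3 : M + 1 ≤ ∑ Q ∈ 𝒮, Q.card := by
    have := card_nsmul_le_sum 𝒮 card 1 fun Q h => (hQ Q (h1 Q h)).2.1.card_pos
    rwa [hc, smul_eq_mul, mul_one] at this
  have h4 := hexp (𝒮.biUnion id) (biUnion_subset.2 fun Q h => (hQ Q (h1 Q h)).1) (by
    have := sum_le_card_nsmul 𝒮 card K fun Q h => (hQ Q (h1 Q h)).2.2.1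
    rw [hc, smul_eq_mul] at this
    exact h2 ▸ this.trans hR)
  have h5 : (nh G U (𝒮.biUnion id)).card ≤ Λ + ∑ Q ∈ 𝒮, (nh G (U \ W) Q).card := by
    refine le_trans (card_le_card (t := Y ∪ 𝒮.biUnion (nh G (U \ W))) fun y hy => ?_)
      ((card_union_le _ _).trans (add_le_add hY card_biUnion_le))
    obtain ⟨a1, a2, u, a3, a4⟩ := mem_nh.1 hy
    obtain ⟨Q, a5, a6⟩ := mem_biUnion.1 a3
    have a7 : y ∉ Q := fun h => a2 (mem_biUnion.2 ⟨Q, a5, h⟩)
    by_cases hyW : y ∈ W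
    · exact mem_union_left _ ((mem_filter.1 (hS a5)).2 (mem_nh.2 ⟨hyW, a7, u, a6, a4⟩))
    · exact mem_union_right _ (mem_biUnion.2 ⟨Q, a5,
        mem_nh.2 ⟨mem_sdiff.2 ⟨a1, hyW⟩, a7, u, a6, a4⟩⟩)
  have h6 := sum_le_sum fun Q h => (hQ Q (h1 Q h)).2.2.2.le
  rw [← mul_sum] at h6
  rw [h2] at h4
  have h3' : (M : ℝ) + 1 ≤ ∑ Q ∈ 𝒮, (Q.card : ℝ) := by exact_mod_cast h3
  have h5' : ((nh G U (𝒮.biUnion id)).card : ℝ) ≤ Λ + ∑ Q ∈ 𝒮, ((nh G (U \ W) Q).card : ℝ) := by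
    exact_mod_cast h5
  push_cast at h4
  nlinarith

theorem few_bad [Fintype V] {G : SimpleGraph V} [DecidableRel G.Adj] {p δ : ℝ} (h0 : 0 < p)
    (h1 : p ≤ 1) {h K D Λ M : ℕ} (hΛ1 : 2 ^ (h + 1) ≤ Λ * p ^ (K * D))
    (hΛ2 : 8 ≤ δ * (p ^ (K * D)) ^ 2 * Λ) {U W : Finset V} (hW : W ⊆ U) {𝒬 : Finset (Finset V)}
    (hQ : ∀ Q ∈ 𝒬, Q ⊆ U ∧ Disjoint Q W ∧ Conn G Q ∧ Q.card ≤ K ∧
      ∀ u ∈ Q, (U.filter (G.Adj u)).card ≤ D)
    (hd : ∀ Q ∈ 𝒬, ∀ Q' ∈ 𝒬, Q ≠ Q' → Disjoint Q Q')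
    (hM : ∀ Y : Finset V, Y.card ≤ Λ → (𝒬.filter fun Q => nh G W Q ⊆ Y).card ≤ M)
    (hK : δ < Pr p G.edgeFinset fun F => ¬ HasK (gr F) h) :
    𝒬.card ≤ Λ * W.card + M * (W.card + 1) := by
  classical
  let ok : Finset (Finset V × V × V) → Prop := fun P =>
    (∀ i ∈ P, i.2.1 ≠ i.2.2 ∧ i.2.1 ∈ nh G W i.1 ∧ i.2.2 ∈ nh G W i.1) ∧
      ∀ i ∈ P, ∀ j ∈ P, i.1 = j.1 ∨ i.2 = j.2 → i = j
  obtain ⟨P, hP, hmax⟩ := exists_max_image ((𝒬 ×ˢ univ).powerset.filter ok) card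
    ⟨∅, by simp [ok]⟩
  obtain ⟨hP1, hP2, hP3⟩ := mem_filter.1 hP
  have hP4 : ∀ i ∈ P, i.1 ∈ 𝒬 := fun i hi => (mem_product.1 (mem_powerset.1 hP1 hi)).1
  have hcl : ∀ Q ∈ 𝒬, Q ∉ P.image Prod.fst → ∀ x ∈ nh G W Q, ∀ y ∈ nh G W Q, x ≠ y →
      ∃ i ∈ P, i.2 = (x, y) := fun Q hQ' hQP x hx y hy hne => by
    by_contra hno
    push Not at hno
    have a1 : ∀ i ∈ P, i.1 ≠ Q := fun i hi e => hQP (mem_image.2 ⟨i, hi, e⟩)
    have := hmax (insert (Q, x, y) P) (mem_filter.2 ⟨mem_powerset.2 (insert_subset (by simp [hQ'])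
      (mem_powerset.1 hP1)), by simpa [hx, hy, hne] using hP2, fun i hi j hj hij => by
        rcases mem_insert.1 hi with rfl | hi <;> rcases mem_insert.1 hj with rfl | hj
        · rfl
        · exact (hij.elim (a1 j hj).symm (hno j hj).symm).elim
        · exact (hij.elim (a1 i hi) (hno i hi)).elim
        · exact hP3 i hi j hj hij⟩)
    rw [card_insert_of_notMem fun h => a1 _ h rfl] at this
    omega
  have hsp : ∀ W' ⊆ W, W'.Nonempty →
      (P.filter fun i => i.2.1 ∈ W' ∧ i.2.2 ∈ W').card < Λ * W'.card := fun W' hW' hne => by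
    by_contra hle
    let J : Finset V × V × V → Finset (Sym2 V) := fun i =>
      G.edgeFinset.filter fun e => ∃ u ∈ i.1, ∃ z ∈ i.1 ∪ W, e = s(u, z)
    have hJ : ∀ i, ∀ u ∈ i.1, ∀ z ∈ i.1 ∪ W, G.Adj u z → (gr (J i)).Adj u z :=
      fun i u hu z hz h => gr_adj.2 ⟨mem_filter.2 ⟨mem_edgeFinset.2 h, u, hu, z, hz, rfl⟩, h.ne⟩
    refine hK.not_ge (virtual h0 h1 hΛ1 hΛ2 hne (not_lt.1 hle) (·.2.1) (·.2.2) (·.1) J
      (fun i hi => ?_) (fun i hi j hj e1 e2 => ?_) (fun i hi => ?_) (fun i hi j hj hij => ?_)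
      (fun i hi => ⟨filter_subset _ _, ?_⟩) (fun i hi => ?_) fun i hi => ?_)
    · obtain ⟨a1, a2, a3⟩ := mem_filter.1 hi
      exact ⟨a2, a3, (hP2 i a1).1⟩
    · exact hP3 i (mem_filter.1 hi).1 j (mem_filter.1 hj).1 (Or.inr (Prod.ext e1 e2))
    · exact (hQ _ (hP4 i (mem_filter.1 hi).1)).2.1.mono_right hW'
    · exact hd _ (hP4 i (mem_filter.1 hi).1) _ (hP4 j (mem_filter.1 hj).1) fun e =>
        hij (hP3 i (mem_filter.1 hi).1 j (mem_filter.1 hj).1 (Or.inl e))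
    · obtain ⟨a1, -, -, a2, a3⟩ := hQ _ (hP4 i (mem_filter.1 hi).1)
      refine (card_le_card (t := i.1.biUnion fun u => (U.filter (G.Adj u)).image (s(u, ·)))
        fun e he => ?_).trans ((card_biUnion_le_card_mul _ _ D fun u hu =>
          card_image_le.trans (a3 u hu)).trans (Nat.mul_le_mul_right D a2))
      obtain ⟨b1, u, hu, z, hz, rfl⟩ := mem_filter.1 he
      exact mem_biUnion.2 ⟨u, hu, mem_image_of_mem _ (mem_filter.2
        ⟨(mem_union.1 hz).elim (fun h => a1 h) fun h => hW h, mem_edgeFinset.1 b1⟩)⟩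
    · refine (card_le_card (t := {i}) fun j hj => ?_).trans (by simp)
      obtain ⟨hj, hij⟩ := mem_filter.1 hj
      obtain ⟨e, a1, a2⟩ := not_disjoint_iff.1 hij
      obtain ⟨-, u, hu, z, hz, rfl⟩ := mem_filter.1 a1
      obtain ⟨-, u', hu', z', hz', e⟩ := mem_filter.1 a2
      have hi' := (mem_filter.1 hi).1
      have hj' := (mem_filter.1 hj).1
      refine mem_singleton.2 (hP3 j hj' i hi' (Or.inl ?_))
      by_contra hne
      refine disjoint_left.1 (hd _ (hP4 j hj') _ (hP4 i hi') hne) ?_ hu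
      rcases Sym2.eq_iff.1 e with ⟨rfl, -⟩ | ⟨rfl, -⟩
      · exact hu'
      · exact (mem_union.1 hz').resolve_right (disjoint_left.1 (hQ _ (hP4 i hi')).2.1 hu)
    · have hi' := (mem_filter.1 hi).1
      obtain ⟨-, a1, a2⟩ := hP2 i hi'
      obtain ⟨b1, -, u, hu, b2⟩ := mem_nh.1 a1
      obtain ⟨c1, -, v, hv, c2⟩ := mem_nh.1 a2
      have hc := (hQ _ (hP4 i hi')).2.2.1
      refine ⟨?_, v, mem_insert_of_mem hv, _, mem_singleton_self _,
        hJ i v hv _ (mem_union_right _ c1) c2⟩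
      rw [insert_eq]
      exact (conn_singleton _).union_touch ⟨hc.1, fun x hx y hy => (hc.2 x hx y hy).of_adj
        fun x hx y hy => hJ i x hx y (mem_union_left _ hy)⟩
        ⟨_, mem_singleton_self _, u, hu, (hJ i u hu _ (mem_union_right _ b1) b2).symm⟩
  have hind : ∀ W' : Finset V, W' ⊆ W → ((𝒬 \ P.image Prod.fst).filter fun Q =>
      nh G W Q ⊆ W').card ≤ M * (W'.card + 1) := fun W' => by
    induction W' using Finset.strongInduction with
    | H W' ih =>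
    intro hW'
    rcases W'.eq_empty_or_nonempty with rfl | hne
    · refine (card_le_card (filter_subset_filter _ sdiff_subset)).trans ((hM ∅ (by simp)).trans ?_)
      simp
    have a1 := hsp W' hW' hne
    rw [card_eq_sum_card_fiberwise (f := (·.2.1)) (t := W') fun i hi => (mem_filter.1 hi).2.1,
      mul_comm, ← smul_eq_mul, ← sum_const] at a1
    obtain ⟨x, hx, a2⟩ := exists_lt_of_sum_lt a1
    have a3 := hM (insert x (image (·.2.2) _)) ((card_insert_le _ _).trans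
      (Nat.succ_le_of_lt (card_image_le.trans_lt a2)))
    have a4 := ih _ (erase_ssubset hx) ((erase_subset _ _).trans hW')
    rw [card_erase_add_one hx] at a4
    rw [mul_add_one]
    refine le_trans (card_le_card fun Q hQ' => ?_) ((card_union_le _ _).trans (add_le_add a4 a3))
    obtain ⟨b1, b2⟩ := mem_filter.1 hQ'
    obtain ⟨b3, b4⟩ := mem_sdiff.1 b1
    by_cases hxQ : x ∈ nh G W Q
    · refine mem_union_right _ (mem_filter.2 ⟨b3, fun y hy => ?_⟩)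
      by_cases hxy : x = y
      · exact hxy ▸ mem_insert_self _ _
      · obtain ⟨i, hi, e⟩ := hcl Q b3 b4 x hxQ y hy hxy
        exact mem_insert_of_mem (mem_image.2 ⟨i, by simp [hi, e, hx, b2 hy], by rw [e]⟩)
    · exact mem_union_left _ (mem_filter.2 ⟨b1, subset_erase.2 ⟨b2, hxQ⟩⟩)
  have a1 := hind W subset_rfl
  rw [filter_true_of_mem fun Q _ y hy => (mem_nh.1 hy).1] at a1
  have a2 : P.card ≤ Λ * W.card := by
    rcases W.eq_empty_or_nonempty with rfl | hne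
    · rw [card_eq_zero.2 (eq_empty_of_forall_notMem fun i hi =>
        notMem_empty _ (mem_nh.1 (hP2 i hi).2.1).1)]
      exact Nat.zero_le _
    · have := hsp W subset_rfl hne
      rw [filter_true_of_mem fun i hi =>
        ⟨(mem_nh.1 (hP2 i hi).2.1).1, (mem_nh.1 (hP2 i hi).2.2).1⟩] at this
      exact this.le
  have a3 := le_card_sdiff (P.image Prod.fst) 𝒬
  have a4 : (P.image Prod.fst).card ≤ P.card := card_image_le
  omega

end Pool.Agent.Lib.MP_3b6a8c_pr
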